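import Pool.Agent.H59.FH.Def

/-!
# [H59 FH Fou] the Fourier transform on words

Let `ψ a = ω ^ a.val` (`ψ (a + b) = ψ a * ψ b`, `ψ 0 = 1`, `∑ a, ψ (k * a) = 0` for `k ≠ 0`; Mathlib: `AddChar.zmodChar`). Define
`F : (W → K) → W → K` by recursion on the word: `F f [] = f []`, `F f (k :: w) = ∑ i : ZMod 5, ψ (-(k * i)) * F (fun v => f (i :: v)) w`;
`E = F e`. Facts: `F` is linear in `f`; `F f (U ++ V) = F (fun u => F (fun v => f (u ++ v)) V) U`; if `f v = 0` for all `v` of length `n` then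
`F f w = 0` for all `w` of length `n`; `F (fun v => f (v.map (· + j))) w = ψ (j * w.sum) * F f w` (substitute `i - j` for `i`); so for `w.sum = 0` and
`∑ j, f (v.map (· + j)) = 0` for all `v` of the length of `w`: `5 * F f w = 0`, and `5 ≠ 0` (characteristic three). This gives `pre`; `nul`: the same with one
letter `k = 0` (`ψ 0 = 1`, the sum itself); `anti`, `sq` by exchanging finite sums (`sq`: the transform of `Ix.sq` in all four letters is
`E (a b c d T) - E (a b d c T) + E (c d a b T) - E (c d b a T) = 0`; put `c = a`, `d = b`, `2 ≠ 0`); `dd`, `tt`: the shift argument for the two (three) letters in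
the middle. Inversion: `∑ k, ψ (k * i') * ψ (-(k * i)) = 5` if `i = i'` and `0` otherwise, by induction on the length.
-/

set_option autoImplicit false

namespace Pool.Agent.H59.FH

/-- the transform at the word `w`, as a linear form -/
noncomputable def fF {K : Type} [Field K] (ψ : ZMod 5 → K) : W → (W → K) →ₗ[K] K
  | [] => LinearMap.proj []
  | k :: w => ∑ i : ZMod 5, ψ (-(k * i)) • (fF ψ w ∘ₗ LinearMap.funLeft K K (fun v : W => i :: v))

section

variable {K : Type} [Field K] {ψ : ZMod 5 → K}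

private theorem f_univ (ψ : ZMod 5 → K) : ∑ a, ψ a = ψ 0 + ψ 1 + ψ 2 + ψ 3 + ψ 4 :=
  Fin.sum_univ_five (fun a : Fin 5 => ψ a)

private theorem f_nil (f : W → K) : fF ψ [] f = f [] := rfl

private theorem f_cons (k : ZMod 5) (w : W) (f : W → K) :
    fF ψ (k :: w) f = ∑ i : ZMod 5, ψ (-(k * i)) * fF ψ w (fun v => f (i :: v)) := by
  simp only [fF, LinearMap.sum_apply, LinearMap.smul_apply, smul_eq_mul, LinearMap.comp_apply]
  rfl

private theorem f_sum {ι : Type} (s : Finset ι) (w : W) (f : ι → W → K) :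
    fF ψ w (fun v => ∑ j ∈ s, f j v) = ∑ j ∈ s, fF ψ w (f j) := by
  rw [← map_sum]
  congr 1
  funext v
  rw [Finset.sum_apply]

private theorem f_mul (w : W) (c : K) (f : W → K) : fF ψ w (fun v => c * f v) = c * fF ψ w f := by
  rw [← smul_eq_mul, ← map_smul]
  rfl

private theorem f_sub (w : W) (f g : W → K) : fF ψ w (fun v => f v - g v) = fF ψ w f - fF ψ w g := by
  rw [← map_sub]
  rfl

private theorem f_add (w : W) (f g : W → K) : fF ψ w (fun v => f v + g v) = fF ψ w f + fF ψ w g := by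
  rw [← map_add]
  rfl

private theorem f_zero (w : W) : ∀ (f : W → K), (∀ v : W, v.length = w.length → f v = 0) → fF ψ w f = 0 := by
  induction w with
  | nil => intro f h; exact h [] rfl
  | cons k w ih =>
    intro f h
    rw [f_cons]
    refine Finset.sum_eq_zero fun i _ => ?_
    rw [ih _ (fun v hv => h (i :: v) (by simp [hv])), mul_zero]

private theorem f_congr (w : W) (f g : W → K) (h : ∀ v : W, v.length = w.length → f v = g v) :
    fF ψ w f = fF ψ w g := by
  rw [← sub_eq_zero, ← f_sub]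
  exact f_zero w _ fun v hv => sub_eq_zero.2 (h v hv)

private theorem f_append (U V : W) : ∀ (f : W → K),
    fF ψ (U ++ V) f = fF ψ U (fun u => fF ψ V (fun v => f (u ++ v))) := by
  induction U with
  | nil => intro f; rfl
  | cons k U ih =>
    intro f
    rw [List.cons_append, f_cons, f_cons]
    refine Finset.sum_congr rfl fun i _ => ?_
    rw [ih]
    rfl

private theorem f_comm (U V : W) : ∀ (g : W → W → K),
    fF ψ U (fun u => fF ψ V (fun v => g u v)) = fF ψ V (fun v => fF ψ U (fun u => g u v)) := by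
  induction U with
  | nil => intro g; rfl
  | cons k U ih =>
    intro g
    rw [f_cons]
    simp only [f_cons, ih]
    rw [f_sum]
    refine Finset.sum_congr rfl fun i _ => ?_
    rw [f_mul]

private theorem f_rev (a b : ZMod 5) (f : W → K) : fF ψ [b, a] f = fF ψ [a, b] (fun v => f v.reverse) := by
  simp only [f_cons, f_nil, Finset.mul_sum]
  rw [Finset.sum_comm]
  refine Finset.sum_congr rfl fun i _ => Finset.sum_congr rfl fun j _ => ?_
  simp only [List.reverse_cons, List.reverse_nil, List.nil_append, List.cons_append]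
  ring

private theorem f_shift (hadd : ∀ a b, ψ (a + b) = ψ a * ψ b) (j : ZMod 5) (w : W) : ∀ (f : W → K),
    ψ 0 = 1 → fF ψ w (fun v => f (v.map (fun i => i + j))) = ψ (j * w.sum) * fF ψ w f := by
  induction w with
  | nil =>
    intro f h0
    rw [f_nil, f_nil, List.sum_nil, mul_zero, h0, one_mul]
    rfl
  | cons k w ih =>
    intro f h0
    rw [f_cons, f_cons, Finset.mul_sum]
    refine Fintype.sum_equiv (Equiv.addRight j) _ _ fun i => ?_
    have h1 := ih (fun v => f ((i + j) :: v)) h0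
    have h2 : fF ψ w (fun v => f ((i :: v).map (fun i => i + j))) = ψ (j * w.sum) * fF ψ w (fun v => f ((i + j) :: v)) := h1
    rw [h2, List.sum_cons, Equiv.coe_addRight, ← mul_assoc, ← mul_assoc, ← hadd, ← hadd]
    congr 2
    ring

private theorem f_shift0 (hadd : ∀ a b, ψ (a + b) = ψ a * ψ b) (h0 : ψ 0 = 1) (h5 : (5 : K) ≠ 0) (w : W) (f : W → K)
    (hs : w.sum = 0) (hf : ∀ v : W, v.length = w.length → ∑ j : ZMod 5, f (v.map (fun i => i + j)) = 0) :
    fF ψ w f = 0 := by
  have h1 := f_zero (ψ := ψ) w (fun v => ∑ j : ZMod 5, f (v.map (fun i => i + j))) hf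
  rw [f_sum] at h1
  have h2 : ∀ j : ZMod 5, fF ψ w (fun v => f (v.map (fun i => i + j))) = fF ψ w f := by
    intro j
    rw [f_shift hadd j w f h0, hs, mul_zero, h0, one_mul]
  rw [Finset.sum_congr rfl fun j _ => h2 j, Finset.sum_const, Finset.card_univ, ZMod.card, nsmul_eq_mul] at h1
  exact (mul_eq_zero.1 h1).resolve_left (by exact_mod_cast h5)

private theorem f_inv (hadd : ∀ a b, ψ (a + b) = ψ a * ψ b) (h0 : ψ 0 = 1) (h5 : (5 : K) ≠ 0)
    (hs : ∀ k : ZMod 5, k ≠ 0 → ∑ a, ψ (k * a) = 0) (n : ℕ) : ∀ (f : W → K),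
    (∀ w : W, w.length = n → fF ψ w f = 0) → ∀ w : W, w.length = n → f w = 0 := by
  induction n with
  | zero =>
    intro f h w hw
    rw [List.length_eq_zero_iff.1 hw]
    exact h [] rfl
  | succ n ih =>
    intro f h w hw
    obtain ⟨i', v, rfl⟩ : ∃ i' v, w = i' :: v := by
      cases w with
      | nil => simp at hw
      | cons i' v => exact ⟨i', v, rfl⟩
    refine ih (fun v => f (i' :: v)) (fun u hu => ?_) v (by simpa using hw)
    have h1 : ∀ k : ZMod 5, ∑ i : ZMod 5, ψ (-(k * i)) * fF ψ u (fun v => f (i :: v)) = 0 := by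
      intro k
      rw [← f_cons]
      exact h (k :: u) (by simp [hu])
    have h2 : ∑ k : ZMod 5, ψ (k * i') * ∑ i : ZMod 5, ψ (-(k * i)) * fF ψ u (fun v => f (i :: v)) = 0 := by
      refine Finset.sum_eq_zero fun k _ => ?_
      rw [h1 k, mul_zero]
    have h3 : ∑ k : ZMod 5, ψ (k * i') * ∑ i : ZMod 5, ψ (-(k * i)) * fF ψ u (fun v => f (i :: v)) =
        ∑ i : ZMod 5, (∑ k : ZMod 5, ψ ((i' - i) * k)) * fF ψ u (fun v => f (i :: v)) := by
      simp only [Finset.mul_sum, Finset.sum_mul]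
      rw [Finset.sum_comm]
      refine Finset.sum_congr rfl fun i _ => Finset.sum_congr rfl fun k _ => ?_
      rw [← mul_assoc, ← hadd]
      congr 2
      ring
    rw [h3, Finset.sum_eq_single i'] at h2
    · rw [sub_self] at h2
      simp only [zero_mul, h0, Finset.sum_const, Finset.card_univ, ZMod.card, nsmul_eq_mul, mul_one] at h2
      exact (mul_eq_zero.1 h2).resolve_left (by exact_mod_cast h5)
    · intro i _ hi
      rw [hs _ (sub_ne_zero.2 hi.symm), zero_mul]
    · intro hi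
      exact absurd (Finset.mem_univ _) hi

end

theorem fourier {K : Type} [Field K] [CharP K 3] {ω : K} (hω : ω ^ 5 = 1) (hω1 : ω ≠ 1) {e : W → K} (h : Ix e) :
    ∃ E : W → K, Ax E ∧ ((∀ w : W, w.length = 6 → E w = 0) → ∀ w : W, w.length = 6 → e w = 0) := by
  have : Fact (Nat.Prime 5) := ⟨by norm_num⟩
  have h5 : (5 : K) ≠ 0 := by
    have h1 := (CharP.cast_eq_zero_iff K 3 5).not.2 (by norm_num)
    exact_mod_cast h1
  have h2 : (2 : K) ≠ 0 := by
    have h1 := (CharP.cast_eq_zero_iff K 3 2).not.2 (by norm_num)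
    exact_mod_cast h1
  obtain ⟨ψ, hψ⟩ : ∃ ψ : ZMod 5 → K, ∀ a, ψ a = ω ^ a.val := ⟨_, fun _ => rfl⟩
  have h0 : ψ 0 = 1 := by rw [hψ, ZMod.val_zero, pow_zero]
  have hadd : ∀ a b, ψ (a + b) = ψ a * ψ b := by
    intro a b
    rw [hψ, hψ, hψ, ← pow_add, ZMod.val_add, ← pow_eq_pow_mod _ hω]
  have hs1 : ∑ a, ψ a = 0 := by
    have h3 : ∑ a, ψ a = 1 + ω + ω ^ 2 + ω ^ 3 + ω ^ 4 := by
      refine (f_univ ψ).trans ?_
      rw [hψ, hψ, hψ, hψ, hψ]
      have v0 : (0 : ZMod 5).val = 0 := rfl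
      have v1 : (1 : ZMod 5).val = 1 := rfl
      have v2 : (2 : ZMod 5).val = 2 := rfl
      have v3 : (3 : ZMod 5).val = 3 := rfl
      have v4 : (4 : ZMod 5).val = 4 := rfl
      rw [v0, v1, v2, v3, v4, pow_zero, pow_one]
    rw [h3]
    have h4 : (ω - 1) * (1 + ω + ω ^ 2 + ω ^ 3 + ω ^ 4) = 0 := by
      linear_combination hω
    exact (mul_eq_zero.1 h4).resolve_left (sub_ne_zero.2 hω1)
  have hs : ∀ k : ZMod 5, k ≠ 0 → ∑ a, ψ (k * a) = 0 := by
    intro k hk
    rw [← hs1]
    exact Fintype.sum_equiv (Equiv.mulLeft₀ k hk) _ _ fun _ => rfl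
  refine ⟨fun w => fF ψ w e, ?_, f_inv hadd h0 h5 hs 6 e⟩
  constructor
  · -- pre
    intro U T hU hl hsum
    show fF ψ (U ++ T) e = 0
    rw [f_append]
    refine f_shift0 hadd h0 h5 U _ hsum fun u hu => ?_
    rw [← f_sum]
    refine f_zero T _ fun t ht => ?_
    refine h.pre u t ?_ (by omega)
    intro hu0
    rw [hu0] at hu
    exact hU (List.length_eq_zero_iff.1 hu.symm)
  · -- nul
    intro U T hl
    show fF ψ (U ++ 0 :: T) e = 0
    rw [f_append]
    refine f_zero U _ fun u hu => ?_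
    rw [f_cons]
    simp only [zero_mul, neg_zero, h0, one_mul]
    rw [← f_sum]
    refine f_zero T _ fun t ht => ?_
    exact h.nul u t (by omega)
  · -- anti
    intro a b T hl
    show fF ψ ([a, b] ++ T) e = - fF ψ ([b, a] ++ T) e
    rw [f_append, f_append, f_rev a b, ← map_neg]
    refine f_congr _ _ _ fun v hv => ?_
    obtain ⟨i, j, rfl⟩ := List.length_eq_two.1 hv
    show fF ψ T (fun t => e (i :: j :: t)) = - fF ψ T (fun t => e (j :: i :: t))
    rw [← map_neg]
    refine f_congr _ _ _ fun t ht => ?_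
    exact h.anti i j t (by omega)
  · -- sq
    intro a b T hl
    have key : ∀ c d : ZMod 5, fF ψ ([a, b] ++ ([c, d] ++ T)) e - fF ψ ([a, b] ++ ([d, c] ++ T)) e +
        fF ψ ([c, d] ++ ([a, b] ++ T)) e - fF ψ ([c, d] ++ ([b, a] ++ T)) e = 0 := by
      intro c d
      have e1 : fF ψ ([a, b] ++ ([c, d] ++ T)) e = fF ψ [a, b] (fun u => fF ψ [c, d] (fun v => fF ψ T (fun t => e (u ++ (v ++ t))))) := by
        rw [f_append]
        simp only [f_append]
      have e2 : fF ψ ([a, b] ++ ([d, c] ++ T)) e = fF ψ [a, b] (fun u => fF ψ [c, d] (fun v => fF ψ T (fun t => e (u ++ (v.reverse ++ t))))) := by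
        rw [f_append]
        simp only [f_append _ T, f_rev c d]
      have e3 : fF ψ ([c, d] ++ ([a, b] ++ T)) e = fF ψ [a, b] (fun u => fF ψ [c, d] (fun v => fF ψ T (fun t => e (v ++ (u ++ t))))) := by
        rw [f_append, f_comm [a, b] [c, d]]
        simp only [f_append _ T]
      have e4 : fF ψ ([c, d] ++ ([b, a] ++ T)) e = fF ψ [a, b] (fun u => fF ψ [c, d] (fun v => fF ψ T (fun t => e (v ++ (u.reverse ++ t))))) := by
        rw [f_append, f_comm [a, b] [c, d]]
        simp only [f_append _ T, f_rev a b]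
      rw [e1, e2, e3, e4, ← f_sub, ← f_add, ← f_sub]
      refine f_zero _ _ fun u hu => ?_
      rw [← f_sub, ← f_add, ← f_sub]
      refine f_zero _ _ fun v hv => ?_
      rw [← f_sub, ← f_add, ← f_sub]
      refine f_zero _ _ fun t ht => ?_
      obtain ⟨i, j, rfl⟩ := List.length_eq_two.1 hu
      obtain ⟨k, l, rfl⟩ := List.length_eq_two.1 hv
      exact h.sq i j k l t (by omega)
    have h3 := key a b
    show fF ψ ([a, b] ++ ([a, b] ++ T)) e = fF ψ ([a, b] ++ ([b, a] ++ T)) e
    have h4 : (2 : K) * (fF ψ ([a, b] ++ ([a, b] ++ T)) e - fF ψ ([a, b] ++ ([b, a] ++ T)) e) = 0 := by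
      linear_combination h3
    exact sub_eq_zero.1 ((mul_eq_zero.1 h4).resolve_left h2)
  · -- dd
    intro U a b T hU hl hab
    show fF ψ (U ++ ([a, b] ++ T)) e = fF ψ (U ++ ([b, a] ++ T)) e
    rw [← sub_eq_zero, f_append, f_append, ← f_sub]
    refine f_zero U _ fun u hu => ?_
    rw [f_append, f_append, f_rev a b, ← f_sub]
    refine f_shift0 hadd h0 h5 [a, b] _ (by simpa using hab) fun v hv => ?_
    obtain ⟨i, j, rfl⟩ := List.length_eq_two.1 hv
    have hu0 : u ≠ [] := by
      intro hu0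
      rw [hu0] at hu
      exact hU (List.length_eq_zero_iff.1 hu.symm)
    have h3 : ∀ s : ZMod 5, fF ψ T (fun t => e (u ++ (([i, j] : W).map (fun i => i + s) ++ t))) -
        fF ψ T (fun t => e (u ++ ((([i, j] : W).map (fun i => i + s)).reverse ++ t))) =
        fF ψ T (fun t => e (u ++ (i + s) :: (j + s) :: t) - e (u ++ (j + s) :: (i + s) :: t)) := by
      intro s
      rw [← f_sub]
      rfl
    rw [Finset.sum_congr rfl fun s _ => h3 s, ← f_sum]
    refine f_zero T _ fun t ht => ?_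
    exact h.dd u i j t hu0 (by omega)
  · -- tt
    intro U a b c T hU hl habc
    show fF ψ (U ++ ([a, b, c] ++ T)) e - fF ψ (U ++ ([b, a, c] ++ T)) e - fF ψ (U ++ ([c, a, b] ++ T)) e +
      fF ψ (U ++ ([c, b, a] ++ T)) e = 0
    rw [f_append, f_append, f_append, f_append, ← f_sub, ← f_sub, ← f_add]
    refine f_zero U _ fun u hu => ?_
    rw [f_append, f_append, f_append, f_append]
    obtain ⟨g, hg⟩ : ∃ g : W → K, g = fun v => fF ψ T (fun t => e (u ++ (v ++ t))) := ⟨_, rfl⟩
    rw [← hg]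
    obtain ⟨G, hG⟩ : ∃ G : W → K, ∀ i k l, G [i, k, l] = g [i, k, l] - g [k, i, l] - g [l, i, k] + g [l, k, i] :=
      ⟨fun v => g v - g [v.getD 1 0, v.getD 0 0, v.getD 2 0] - g [v.getD 2 0, v.getD 0 0, v.getD 1 0] +
        g [v.getD 2 0, v.getD 1 0, v.getD 0 0], fun i k l => rfl⟩
    have hF3 : ∀ (a b c : ZMod 5) (f : W → K), fF ψ [a, b, c] f =
        ∑ i, ∑ k, ∑ l, ψ (-(a * i)) * (ψ (-(b * k)) * (ψ (-(c * l)) * f [i, k, l])) := by
      intro a b c f
      simp only [f_cons, f_nil, Finset.mul_sum]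
    have hG3 : fF ψ [a, b, c] g - fF ψ [b, a, c] g - fF ψ [c, a, b] g + fF ψ [c, b, a] g = fF ψ [a, b, c] G := by
      have e2 : fF ψ [b, a, c] g = ∑ i, ∑ k, ∑ l, ψ (-(a * i)) * (ψ (-(b * k)) * (ψ (-(c * l)) * g [k, i, l])) := by
        rw [hF3, Finset.sum_comm]
        refine Finset.sum_congr rfl fun i _ => Finset.sum_congr rfl fun k _ => Finset.sum_congr rfl fun l _ => ?_
        ring
      have e3 : fF ψ [c, a, b] g = ∑ i, ∑ k, ∑ l, ψ (-(a * i)) * (ψ (-(b * k)) * (ψ (-(c * l)) * g [l, i, k])) := by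
        rw [hF3, Finset.sum_comm]
        refine Finset.sum_congr rfl fun i _ => ?_
        rw [Finset.sum_comm]
        refine Finset.sum_congr rfl fun k _ => Finset.sum_congr rfl fun l _ => ?_
        ring
      have e4 : fF ψ [c, b, a] g = ∑ i, ∑ k, ∑ l, ψ (-(a * i)) * (ψ (-(b * k)) * (ψ (-(c * l)) * g [l, k, i])) := by
        rw [hF3]
        have e5 : ∀ l, ∑ k, ∑ i, ψ (-(c * l)) * (ψ (-(b * k)) * (ψ (-(a * i)) * g [l, k, i])) =
            ∑ i, ∑ k, ψ (-(c * l)) * (ψ (-(b * k)) * (ψ (-(a * i)) * g [l, k, i])) := fun l => Finset.sum_comm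
        rw [Finset.sum_congr rfl fun l _ => e5 l, Finset.sum_comm]
        refine Finset.sum_congr rfl fun i _ => ?_
        rw [Finset.sum_comm]
        refine Finset.sum_congr rfl fun k _ => Finset.sum_congr rfl fun l _ => ?_
        ring
      rw [hF3 a b c g, e2, e3, e4, hF3 a b c G]
      simp only [← Finset.sum_sub_distrib, ← Finset.sum_add_distrib]
      refine Finset.sum_congr rfl fun i _ => Finset.sum_congr rfl fun k _ => Finset.sum_congr rfl fun l _ => ?_
      rw [hG]
      ring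
    rw [hG3]
    refine f_shift0 hadd h0 h5 [a, b, c] G (by simpa [add_assoc] using habc) fun v hv => ?_
    obtain ⟨i, k, l, rfl⟩ := List.length_eq_three.1 hv
    have hu0 : u ≠ [] := by
      intro hu0
      rw [hu0] at hu
      exact hU (List.length_eq_zero_iff.1 hu.symm)
    have h3 : ∀ s : ZMod 5, G (([i, k, l] : W).map (fun i => i + s)) =
        fF ψ T (fun t => e (u ++ (i + s) :: (k + s) :: (l + s) :: t) - e (u ++ (k + s) :: (i + s) :: (l + s) :: t) -
          e (u ++ (l + s) :: (i + s) :: (k + s) :: t) + e (u ++ (l + s) :: (k + s) :: (i + s) :: t)) := by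
      intro s
      show G [i + s, k + s, l + s] = _
      rw [hG, hg, f_add, f_sub, f_sub]
      rfl
    rw [Finset.sum_congr rfl fun s _ => h3 s, ← f_sum]
    refine f_zero T _ fun t ht => ?_
    exact h.tt u i k l t hu0 (by omega)

end Pool.Agent.H59.FH
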