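import Pool.Agent.H59.FH.Lcs

/-!
# [H59 FH Gen] the last term of the lower central series is generated by the left normed commutators of the generators

Induction on `n`: `lcs n` lies in `closure {lc x w | w.length = n + 1} ⊔ lcs (n + 1)` (`comm_mul_left`, `comm_mul_right` with the generators `x j` of `⊤` and
the generators of `lcs n` modulo `lcs (n + 1)`); `lc x (w ++ [j]) = ⁅lc x w, x j⁆` for `w ≠ []`.
-/

set_option autoImplicit false

open scoped commutatorElement

namespace Pool.Agent.H59.FH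

universe u

private lemma lc_snoc {H : Type u} [Group H] (x : ZMod 5 → H) (w : W) (hw : w ≠ []) (j : ZMod 5) :
    lc x (w ++ [j]) = ⁅lc x w, x j⁆ := by
  cases w with
  | nil => exact absurd rfl hw
  | cons a t => simp [lc, tl, List.foldl_append]

private lemma lc_mem {H : Type u} [Group H] (x : ZMod 5 → H) (n : ℕ) :
    ∀ w : W, w.length = n + 1 → lc x w ∈ lcs H n := by
  induction n with
  | zero => intro w _; exact Subgroup.mem_top _
  | succ n ih =>
    intro w hw
    have hne : w ≠ [] := by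
      rintro rfl
      simp at hw
    obtain ⟨w', j, rfl⟩ : ∃ (w' : W) (j : ZMod 5), w = w' ++ [j] :=
      ⟨w.dropLast, w.getLast hne, (List.dropLast_append_getLast hne).symm⟩
    have hl : w'.length = n + 1 := by
      simpa using hw
    have hne' : w' ≠ [] := by
      rintro rfl
      simp at hl
    rw [lc_snoc x w' hne' j]
    exact Subgroup.commutator_mem_commutator (ih w' hl) (Subgroup.mem_top _)

private lemma lcs_anti {H : Type u} [Group H] (n : ℕ) : lcs H (n + 1) ≤ lcs H n :=
  (⊤ : Subgroup H).lowerCentralSeries_antitone (Nat.le_succ n)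

private lemma left_closed {H : Type u} [Group H] (n : ℕ) (P : Subgroup H) (hP : lcs H (n + 2) ≤ P) (k : H)
    (S : Set H) (hS : ∀ g ∈ S, g ∈ lcs H n) (hSk : ∀ g ∈ S, ⁅g, k⁆ ∈ P)
    (g : H) (hg : g ∈ Subgroup.closure S) : g ∈ lcs H n ∧ ⁅g, k⁆ ∈ P := by
  have hk : k ∈ lcs H 0 := Subgroup.mem_top _
  induction hg using Subgroup.closure_induction with
  | mem g hg => exact ⟨hS g hg, hSk g hg⟩
  | one => exact ⟨one_mem _, by rw [commutatorElement_one_left]; exact one_mem _⟩
  | mul g h _ _ ihg ihh =>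
    obtain ⟨r, hr, he⟩ := comm_mul_left ihg.1 ihh.1 hk
    exact ⟨mul_mem ihg.1 ihh.1, by rw [he]; exact mul_mem (mul_mem ihg.2 ihh.2) (hP hr)⟩
  | inv g _ ihg =>
    refine ⟨inv_mem ihg.1, ?_⟩
    obtain ⟨r, hr, he⟩ := comm_mul_left ihg.1 (inv_mem ihg.1) hk
    rw [mul_inv_cancel, commutatorElement_one_left] at he
    have h2 : ⁅g⁻¹, k⁆ = ⁅g, k⁆⁻¹ * r⁻¹ := by
      rw [eq_mul_inv_iff_mul_eq]
      refine eq_inv_of_mul_eq_one_right ?_
      rw [← mul_assoc]
      exact he.symm
    rw [h2]
    exact mul_mem (inv_mem ihg.2) (inv_mem (hP hr))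

private lemma right_closed {H : Type u} [Group H] (n : ℕ) (P : Subgroup H) (hP : lcs H (n + 2) ≤ P) (g : H)
    (hg : g ∈ lcs H n) (S : Set H) (hSk : ∀ k ∈ S, ⁅g, k⁆ ∈ P)
    (k : H) (hk : k ∈ Subgroup.closure S) : ⁅g, k⁆ ∈ P := by
  induction hk using Subgroup.closure_induction with
  | mem k hk => exact hSk k hk
  | one => rw [commutatorElement_one_right]; exact one_mem _
  | mul h k _ _ ihh ihk =>
    obtain ⟨r, hr, he⟩ := comm_mul_right (b := 0) (h := h) (k := k) hg (Subgroup.mem_top _) (Subgroup.mem_top _)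
    rw [he]
    exact mul_mem (mul_mem ihh ihk) (hP hr)
  | inv k _ ihk =>
    obtain ⟨r, hr, he⟩ := comm_mul_right (b := 0) (h := k) (k := k⁻¹) hg (Subgroup.mem_top _) (Subgroup.mem_top _)
    rw [mul_inv_cancel, commutatorElement_one_right] at he
    have h2 : ⁅g, k⁻¹⁆ = ⁅g, k⁆⁻¹ * r⁻¹ := by
      rw [eq_mul_inv_iff_mul_eq]
      refine eq_inv_of_mul_eq_one_right ?_
      rw [← mul_assoc]
      exact he.symm
    rw [h2]
    exact mul_mem (inv_mem ihk) (inv_mem (hP hr))

theorem lcs_gen {H : Type u} [Group H] (x : ZMod 5 → H) (hx : Subgroup.closure (Set.range x) = ⊤) (n : ℕ) :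
    lcs H n ≤ Subgroup.closure {g | ∃ w : W, w.length = n + 1 ∧ g = lc x w} ⊔ lcs H (n + 1) := by
  induction n with
  | zero =>
    refine le_trans ?_ le_sup_left
    have h0 : lcs H 0 = Subgroup.closure (Set.range x) := by rw [hx]; rfl
    rw [h0, Subgroup.closure_le]
    rintro _ ⟨j, rfl⟩
    exact Subgroup.subset_closure ⟨[j], rfl, rfl⟩
  | succ n ih =>
    have hP : lcs H (n + 2) ≤
        Subgroup.closure {g | ∃ w : W, w.length = n + 1 + 1 ∧ g = lc x w} ⊔ lcs H (n + 1 + 1) := le_sup_right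
    generalize hPdef :
      Subgroup.closure {g | ∃ w : W, w.length = n + 1 + 1 ∧ g = lc x w} ⊔ lcs H (n + 1 + 1) = P at hP ⊢
    have hgen : ∀ w : W, w.length = n + 1 + 1 → lc x w ∈ P := by
      intro w hw
      rw [← hPdef]
      exact Subgroup.mem_sup_left (Subgroup.subset_closure ⟨w, hw, rfl⟩)
    have hle : (⁅lcs H n, (⊤ : Subgroup H)⁆ : Subgroup H) ≤ P := by
      rw [Subgroup.commutator_le]
      intro g hg k _
      refine right_closed n P hP g hg (Set.range x) ?_ k (by rw [hx]; exact Subgroup.mem_top _)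
      rintro _ ⟨j, rfl⟩
      have hg' : g ∈ Subgroup.closure
          ({g | ∃ w : W, w.length = n + 1 ∧ g = lc x w} ∪ (lcs H (n + 1) : Set H)) := by
        rw [Subgroup.closure_union, Subgroup.closure_eq]
        exact ih hg
      refine (left_closed n P hP (x j) _ ?_ ?_ g hg').2
      · rintro g (⟨w, hw, rfl⟩ | hg)
        · exact lc_mem x n w hw
        · exact lcs_anti n hg
      · rintro g (⟨w, hw, rfl⟩ | hg)
        · have hne : w ≠ [] := by
            rintro rfl
            simp at hw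
          rw [← lc_snoc x w hne j]
          exact hgen _ (by simp [hw])
        · exact hP (Subgroup.commutator_mem_commutator hg (Subgroup.mem_top _))
    exact hle

end Pool.Agent.H59.FH
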