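import Pool.Agent.H59.FH.Lam

/-!
# [H59 FH Grp] the conditions `Ix` for the commutators of a group

`e w = χ (lc x w)`. For `v ∈ lcs b`, `u = lc x u0`: `B u v t = χ (tl x t ⁅u, v⁆)` is additive in `v` (`comm_mul_right`, `lam_mul`, `lam_one`); by `jacobi`
`B u ⁅v, x c⁆ t = B u v (c :: t) - χ (tl x t ⁅⁅u, x c⁆, v⁆)`. With `∏ j, φ^j v = 1` and `φ^j (x a) = x (a + j)`: `dd` (`v = ⁅x a, x b⁆`), `tt`
(`v = ⁅⁅x a, x b⁆, x c⁆`), `nul` (`v = x 0`; for `u = []` it is `lam_mul` for `x 0 * ⋯ * x 4 = 1`), `pre` (`lam_mul` for `∏ j, φ^j (lc x u) = 1`, and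
`φ (lc x u) = lc x (u.map (· + 1))`). `anti`: `⁅x a, x b⁆ = ⁅x b, x a⁆⁻¹`, `lam_inv`. `sq`: `⁅u, v⁆ = ⁅v, u⁆⁻¹` for `u = ⁅x a, x b⁆`, `v = ⁅x c, x d⁆` and `jacobi`
for both sides.
-/

set_option autoImplicit false

open scoped commutatorElement

namespace Pool.Agent.H59.FH

universe u

private theorem gp_top {H : Type u} [Group H] (g : H) : g ∈ lcs H 0 := by
  unfold lcs
  simp

private theorem gp_comm {H : Type u} [Group H] {a b : ℕ} {g h : H} (hg : g ∈ lcs H a) (hh : h ∈ lcs H b) :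
    ⁅g, h⁆ ∈ lcs H (a + b + 1) := lcs_comm a b (Subgroup.commutator_mem_commutator hg hh)

private theorem gp_c1 {H : Type u} [Group H] (g h : H) : ⁅g, h⁆ ∈ lcs H 1 := by
  have h1 := gp_comm (a := 0) (b := 0) (gp_top g) (gp_top h)
  exact h1

private theorem gp_c2 {H : Type u} [Group H] (g h k : H) : ⁅⁅g, h⁆, k⁆ ∈ lcs H 2 := by
  have h1 := gp_comm (a := 1) (b := 0) (gp_c1 g h) (gp_top k)
  exact h1

private theorem gp_lc_append {H : Type u} [Group H] (x : ZMod 5 → H) {u : W} (hu : u ≠ []) (t : W) :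
    lc x (u ++ t) = tl x t (lc x u) := by
  cases u with
  | nil => exact absurd rfl hu
  | cons a u =>
    show tl x (u ++ t) (x a) = tl x t (tl x u (x a))
    unfold tl
    rw [List.foldl_append]

private theorem gp_lc_snoc {H : Type u} [Group H] (x : ZMod 5 → H) {u : W} (hu : u ≠ []) (c : ZMod 5) :
    lc x (u ++ [c]) = ⁅lc x u, x c⁆ := by
  rw [gp_lc_append x hu]
  rfl

private theorem gp_lc_mem {H : Type u} [Group H] (x : ZMod 5 → H) {u : W} {n : ℕ} (hu : u.length = n + 1) :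
    lc x u ∈ lcs H n := by
  cases u with
  | nil => simp at hu
  | cons a u =>
    have h1 := tl_mem x u (x a) (gp_top (x a))
    rw [zero_add] at h1
    have h2 : u.length = n := by simpa using hu
    rw [h2] at h1
    exact h1

private theorem gp_lc_map {H : Type u} [Group H] (x : ZMod 5 → H) (φ : MulAut H) (hx : ∀ j, φ (x j) = x (j + 1))
    (u : W) : φ (lc x u) = lc x (u.map fun i => i + 1) := by
  have h1 : ∀ (t : W) (h : H), φ (tl x t h) = tl x (t.map fun i => i + 1) (φ h) := by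
    intro t
    induction t with
    | nil => intro h; rfl
    | cons c t ih =>
      intro h
      have h2 := ih ⁅h, x c⁆
      have h3 : φ ⁅h, x c⁆ = ⁅φ h, x (c + 1)⁆ := by
        rw [commutatorElement_def, commutatorElement_def, map_mul, map_mul, map_mul, map_inv, map_inv, hx]
      rw [h3] at h2
      exact h2
  cases u with
  | nil => exact map_one φ
  | cons a u =>
    have h2 := h1 u (x a)
    rw [hx] at h2
    exact h2

private theorem gp_sum5 {K : Type} [Field K] (f : ZMod 5 → K) : ∑ j : ZMod 5, f j = f 0 + f 1 + f 2 + f 3 + f 4 :=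
  Fin.sum_univ_five f

section

variable {H : Type u} [Group H] {K : Type} [Field K] (x : ZMod 5 → H) (χ : H → K)

private theorem gp_lam5 (hc : lcs H 6 = ⊥) (hχ : ∀ g ∈ lcs H 5, ∀ h ∈ lcs H 5, χ (g * h) = χ g + χ h) {n : ℕ}
    (t : W) (hn : n + t.length = 5) (v : ZMod 5 → H) (hv : ∀ j, v j ∈ lcs H n)
    (h1 : v 0 * v 1 * v 2 * v 3 * v 4 = 1) : ∑ j : ZMod 5, χ (tl x t (v j)) = 0 := by
  rw [gp_sum5]
  have m1 := Subgroup.mul_mem _ (hv 0) (hv 1)
  have m2 := Subgroup.mul_mem _ m1 (hv 2)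
  have m3 := Subgroup.mul_mem _ m2 (hv 3)
  have e4 := lam_mul x χ hc hχ t hn m3 (hv 4)
  have e3 := lam_mul x χ hc hχ t hn m2 (hv 3)
  have e2 := lam_mul x χ hc hχ t hn m1 (hv 2)
  have e1 := lam_mul x χ hc hχ t hn (hv 0) (hv 1)
  have e0 : χ (tl x t (1 : H)) = 0 := lam_one x χ hc hχ t hn (Subgroup.one_mem _)
  rw [h1] at e4
  rw [e0] at e4
  rw [e4, e3, e2, e1]

private theorem gp_bmul (hc : lcs H 6 = ⊥) (hχ : ∀ g ∈ lcs H 5, ∀ h ∈ lcs H 5, χ (g * h) = χ g + χ h) {a b : ℕ}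
    (t : W) (hn : a + b + 1 + t.length = 5) {g v w : H} (hg : g ∈ lcs H a) (hv : v ∈ lcs H b) (hw : w ∈ lcs H b) :
    χ (tl x t ⁅g, v * w⁆) = χ (tl x t ⁅g, v⁆) + χ (tl x t ⁅g, w⁆) := by
  obtain ⟨r, hr, e⟩ := comm_mul_right hg hv hw
  have hr' : r ∈ lcs H (a + b + 1) :=
    (Subgroup.lowerCentralSeries_antitone _ (Nat.le_succ (a + b + 1))) hr
  rw [e, lam_mul x χ hc hχ t hn (Subgroup.mul_mem _ (gp_comm hg hv) (gp_comm hg hw)) hr',
    lam_mul x χ hc hχ t hn (gp_comm hg hv) (gp_comm hg hw), lam_one x χ hc hχ t hn hr, add_zero]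

private theorem gp_b5 (hc : lcs H 6 = ⊥) (hχ : ∀ g ∈ lcs H 5, ∀ h ∈ lcs H 5, χ (g * h) = χ g + χ h) {a b : ℕ}
    (t : W) (hn : a + b + 1 + t.length = 5) {g : H} (hg : g ∈ lcs H a) (v : ZMod 5 → H)
    (hv : ∀ j, v j ∈ lcs H b) (h1 : v 0 * v 1 * v 2 * v 3 * v 4 = 1) :
    ∑ j : ZMod 5, χ (tl x t ⁅g, v j⁆) = 0 := by
  rw [gp_sum5]
  have m1 := Subgroup.mul_mem _ (hv 0) (hv 1)
  have m2 := Subgroup.mul_mem _ m1 (hv 2)
  have m3 := Subgroup.mul_mem _ m2 (hv 3)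
  have e4 := gp_bmul x χ hc hχ t hn hg m3 (hv 4)
  have e3 := gp_bmul x χ hc hχ t hn hg m2 (hv 3)
  have e2 := gp_bmul x χ hc hχ t hn hg m1 (hv 2)
  have e1 := gp_bmul x χ hc hχ t hn hg (hv 0) (hv 1)
  have e0 : χ (tl x t ⁅g, (1 : H)⁆) = 0 := by
    rw [commutatorElement_one_right]
    exact lam_one x χ hc hχ t hn (Subgroup.one_mem _)
  rw [h1] at e4
  rw [e0] at e4
  rw [e4, e3, e2, e1]

private theorem gp_jac (hc : lcs H 6 = ⊥) (hχ : ∀ g ∈ lcs H 5, ∀ h ∈ lcs H 5, χ (g * h) = χ g + χ h) {a b : ℕ}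
    (t : W) (hn : a + b + 2 + t.length = 5) {g v : H} (hg : g ∈ lcs H a) (hv : v ∈ lcs H b) (c : ZMod 5) :
    χ (tl x t ⁅g, ⁅v, x c⁆⁆) = χ (tl x (c :: t) ⁅g, v⁆) - χ (tl x t ⁅⁅g, x c⁆, v⁆) := by
  obtain ⟨r, hr, e⟩ := jacobi (c := x c) hg hv
  have hr' : r ∈ lcs H (a + b + 2) :=
    (Subgroup.lowerCentralSeries_antitone _ (Nat.le_succ (a + b + 2))) hr
  have m1 : ⁅⁅g, v⁆, x c⁆ ∈ lcs H (a + b + 2) := by
    have := gp_comm (gp_comm hg hv) (gp_top (x c))
    have e1 : a + b + 1 + 0 + 1 = a + b + 2 := by ring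
    rwa [e1] at this
  have m2 : ⁅⁅g, x c⁆, v⁆ ∈ lcs H (a + b + 2) := by
    have := gp_comm (gp_comm hg (gp_top (x c))) hv
    have e1 : a + 0 + 1 + b + 1 = a + b + 2 := by ring
    rwa [e1] at this
  have e2 : tl x (c :: t) ⁅g, v⁆ = tl x t ⁅⁅g, v⁆, x c⁆ := rfl
  rw [e, lam_mul x χ hc hχ t hn (Subgroup.mul_mem _ m1 (Subgroup.inv_mem _ m2)) hr',
    lam_mul x χ hc hχ t hn m1 (Subgroup.inv_mem _ m2), lam_inv x χ hc hχ t hn m2,
    lam_one x χ hc hχ t hn hr, add_zero, e2, sub_eq_add_neg]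

private theorem gp_two (hc : lcs H 6 = ⊥) (hχ : ∀ g ∈ lcs H 5, ∀ h ∈ lcs H 5, χ (g * h) = χ g + χ h) {u : W}
    (hu : u ≠ []) (a b : ZMod 5) (t : W) (hn : u.length + t.length = 4) :
    χ (tl x t ⁅lc x u, ⁅x a, x b⁆⁆) = χ (lc x (u ++ a :: b :: t)) - χ (lc x (u ++ b :: a :: t)) := by
  obtain ⟨n, hn1⟩ : ∃ n, u.length = n + 1 := Nat.exists_eq_succ_of_ne_zero (fun e => hu (List.length_eq_zero_iff.1 e))
  rw [gp_jac x χ hc hχ (a := n) (b := 0) t (by omega) (gp_lc_mem x hn1) (gp_top (x a)) b,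
    gp_lc_append x hu (a :: b :: t), gp_lc_append x hu (b :: a :: t)]
  rfl

private theorem gp_three (hc : lcs H 6 = ⊥) (hχ : ∀ g ∈ lcs H 5, ∀ h ∈ lcs H 5, χ (g * h) = χ g + χ h) {u : W}
    (hu : u ≠ []) (a b c : ZMod 5) (t : W) (hn : u.length + t.length = 3) :
    χ (tl x t ⁅lc x u, ⁅⁅x a, x b⁆, x c⁆⁆) = χ (lc x (u ++ a :: b :: c :: t)) - χ (lc x (u ++ b :: a :: c :: t)) -
      χ (lc x (u ++ c :: a :: b :: t)) + χ (lc x (u ++ c :: b :: a :: t)) := by
  obtain ⟨n, hn1⟩ : ∃ n, u.length = n + 1 := Nat.exists_eq_succ_of_ne_zero (fun e => hu (List.length_eq_zero_iff.1 e))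
  have mab : ⁅x a, x b⁆ ∈ lcs H 1 := gp_c1 (x a) (x b)
  rw [gp_jac x χ hc hχ (a := n) (b := 1) t (by omega) (gp_lc_mem x hn1) mab c,
    gp_two x χ hc hχ hu a b (c :: t) (by simp only [List.length_cons]; omega), ← gp_lc_snoc x hu c,
    gp_two x χ hc hχ (u := u ++ [c]) (by simp) a b t (by simp only [List.length_append, List.length_cons, List.length_nil]; omega)]
  have e1 : (u ++ [c]) ++ a :: b :: t = u ++ c :: a :: b :: t := by simp
  have e2 : (u ++ [c]) ++ b :: a :: t = u ++ c :: b :: a :: t := by simp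
  rw [e1, e2]
  ring

end

theorem lc_ix {H : Type u} [Group H] (hc : lcs H 6 = ⊥) (x : ZMod 5 → H) (φ : MulAut H)
    (hx : ∀ j, φ (x j) = x (j + 1))
    (hs : ∀ g : H, g * φ g * φ (φ g) * φ (φ (φ g)) * φ (φ (φ (φ g))) = 1) {K : Type} [Field K] (χ : H → K)
    (hχ : ∀ g ∈ lcs H 5, ∀ h ∈ lcs H 5, χ (g * h) = χ g + χ h) : Ix (fun w => χ (lc x w)) := by
  have prod1 : ∀ u : W, lc x (u.map fun i => i + 0) * lc x (u.map fun i => i + 1) * lc x (u.map fun i => i + 2) *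
      lc x (u.map fun i => i + 3) * lc x (u.map fun i => i + 4) = 1 := by
    intro u
    have s0 : (u.map fun i : ZMod 5 => i + 0) = u := by simp
    have s2 : (u.map fun i : ZMod 5 => i + 2) = (u.map fun i => i + 1).map fun i => i + 1 := by
      rw [List.map_map]
      refine List.map_congr_left fun i _ => ?_
      show i + 2 = i + 1 + 1
      rw [add_assoc]; rfl
    have s3 : (u.map fun i : ZMod 5 => i + 3) = (u.map fun i => i + 2).map fun i => i + 1 := by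
      rw [List.map_map]
      refine List.map_congr_left fun i _ => ?_
      show i + 3 = i + 2 + 1
      rw [add_assoc]; rfl
    have s4 : (u.map fun i : ZMod 5 => i + 4) = (u.map fun i => i + 3).map fun i => i + 1 := by
      rw [List.map_map]
      refine List.map_congr_left fun i _ => ?_
      show i + 4 = i + 3 + 1
      rw [add_assoc]; rfl
    have h := hs (lc x u)
    rw [gp_lc_map x φ hx, gp_lc_map x φ hx, ← s2, gp_lc_map x φ hx, ← s3, gp_lc_map x φ hx, ← s4] at h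
    rw [s0]
    exact h
  refine ⟨?_, ?_, ?_, ?_, ?_, ?_⟩
  · -- pre
    intro u t hu hn
    obtain ⟨n, hn1⟩ : ∃ n, u.length = n + 1 :=
      Nat.exists_eq_succ_of_ne_zero (fun e => hu (List.length_eq_zero_iff.1 e))
    have h1 := gp_lam5 x χ hc hχ (n := n) t (by omega) (fun j => lc x (u.map fun i => i + j))
      (fun j => gp_lc_mem x (by rw [List.length_map]; exact hn1)) (prod1 u)
    refine Eq.trans (Finset.sum_congr rfl fun j _ => ?_) h1
    have hne : (u.map fun i => i + j) ≠ [] := fun e => hu (List.map_eq_nil_iff.1 e)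
    show χ (lc x ((u.map fun i => i + j) ++ t)) = χ (tl x t (lc x (u.map fun i => i + j)))
    rw [gp_lc_append x hne]
  · -- nul
    intro u t hn
    have p0 : x 0 * x 1 * x 2 * x 3 * x 4 = 1 := by
      have h := prod1 [0]
      exact h
    by_cases hu : u = []
    · subst hu
      exact gp_lam5 x χ hc hχ (n := 0) t (by simpa using hn) x (fun j => gp_top (x j)) p0
    · obtain ⟨n, hn1⟩ : ∃ n, u.length = n + 1 :=
        Nat.exists_eq_succ_of_ne_zero (fun e => hu (List.length_eq_zero_iff.1 e))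
      have h1 := gp_b5 x χ hc hχ (a := n) (b := 0) t (by omega) (gp_lc_mem x hn1) x (fun j => gp_top (x j)) p0
      refine Eq.trans (Finset.sum_congr rfl fun j _ => ?_) h1
      show χ (lc x (u ++ j :: t)) = χ (tl x t ⁅lc x u, x j⁆)
      rw [gp_lc_append x hu]
      rfl
  · -- anti
    intro a b t hn
    have mba : ⁅x b, x a⁆ ∈ lcs H 1 := gp_c1 (x b) (x a)
    show χ (tl x t ⁅x a, x b⁆) = - χ (tl x t ⁅x b, x a⁆)
    rw [← lam_inv x χ hc hχ (n := 1) t (by omega) mba, commutatorElement_inv]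
  · -- sq
    intro a b c d t hn
    have mab : ⁅x a, x b⁆ ∈ lcs H 1 := gp_c1 (x a) (x b)
    have mcd : ⁅x c, x d⁆ ∈ lcs H 1 := gp_c1 (x c) (x d)
    have m3 : ⁅⁅x c, x d⁆, ⁅x a, x b⁆⁆ ∈ lcs H 3 := by
      have h1 := gp_comm (a := 1) (b := 1) mcd mab
      exact h1
    have h1 := gp_two x χ hc hχ (u := [a, b]) (by simp) c d t (by simp only [List.length_cons, List.length_nil]; omega)
    have h2 := gp_two x χ hc hχ (u := [c, d]) (by simp) a b t (by simp only [List.length_cons, List.length_nil]; omega)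
    have h3 := lam_inv x χ hc hχ (n := 3) t (by omega) m3
    rw [commutatorElement_inv] at h3
    have e1 : χ (tl x t ⁅lc x [a, b], ⁅x c, x d⁆⁆) = χ (tl x t ⁅⁅x a, x b⁆, ⁅x c, x d⁆⁆) := rfl
    have e2 : χ (tl x t ⁅lc x [c, d], ⁅x a, x b⁆⁆) = χ (tl x t ⁅⁅x c, x d⁆, ⁅x a, x b⁆⁆) := rfl
    rw [e1] at h1
    rw [e2] at h2
    rw [h1, h2] at h3
    show χ (lc x ([a, b] ++ c :: d :: t)) - χ (lc x ([a, b] ++ d :: c :: t)) +
      χ (lc x ([c, d] ++ a :: b :: t)) - χ (lc x ([c, d] ++ b :: a :: t)) = 0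
    linear_combination h3
  · -- dd
    intro u a b t hu hn
    obtain ⟨n, hn1⟩ : ∃ n, u.length = n + 1 :=
      Nat.exists_eq_succ_of_ne_zero (fun e => hu (List.length_eq_zero_iff.1 e))
    have h1 := gp_b5 x χ hc hχ (a := n) (b := 1) t (by omega) (gp_lc_mem x hn1)
      (fun j => ⁅x (a + j), x (b + j)⁆) (fun j => gp_c1 _ _) (prod1 [a, b])
    refine Eq.trans (Finset.sum_congr rfl fun j _ => ?_) h1
    exact (gp_two x χ hc hχ hu (a + j) (b + j) t hn).symm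
  · -- tt
    intro u a b c t hu hn
    obtain ⟨n, hn1⟩ : ∃ n, u.length = n + 1 :=
      Nat.exists_eq_succ_of_ne_zero (fun e => hu (List.length_eq_zero_iff.1 e))
    have h1 := gp_b5 x χ hc hχ (a := n) (b := 2) t (by omega) (gp_lc_mem x hn1)
      (fun j => ⁅⁅x (a + j), x (b + j)⁆, x (c + j)⁆)
      (fun j => gp_c2 _ _ _) (prod1 [a, b, c])
    refine Eq.trans (Finset.sum_congr rfl fun j _ => ?_) h1
    exact (gp_three x χ hc hχ hu (a + j) (b + j) (c + j) t hn).symm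

end Pool.Agent.H59.FH
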