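import Mathlib

/-!
# [H59 FH Hom] a nontrivial homomorphism of a finite abelian `3`-group to `ℤ/3`, and a fifth root of unity in characteristic three

`exists_chi`: `A` finite abelian `3`-group, not trivial. The subgroup of the cubes is proper; `Additive` of the quotient is a nonzero vector space over `ZMod 3`
(`AddCommGroup.zmodModule`), it has a nonzero linear form. (Or: a subgroup of index three.)
`exists_root`: `K` the algebraic closure of `ZMod 3`, `X ^ 5 - 1` is separable (`5 ≠ 0`), for instance `ω` a root of `1 + X + ... + X ^ 4`, which is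
not `1` as `5 ≠ 0`.
-/

set_option autoImplicit false

namespace Pool.Agent.H59.FH

universe u

theorem exists_chi {A : Type u} [CommGroup A] [Finite A] (h3 : IsPGroup 3 A) (ha : ∃ a : A, a ≠ 1) :
    ∃ χ : A →* Multiplicative (ZMod 3), ∃ a, χ a ≠ 1 := by
  classical
  have hp : Fact (Nat.Prime 3) := ⟨Nat.prime_three⟩
  obtain ⟨a₀, ha₀⟩ := ha
  have hnt : Nontrivial A := ⟨⟨a₀, 1, ha₀⟩⟩
  let C : Subgroup A := (powMonoidHom 3 : A →* A).range
  have hC : ∃ b : A, b ∉ C := by
    by_contra hcon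
    push Not at hcon
    have hs : Function.Surjective (powMonoidHom 3 : A →* A) := fun b => hcon b
    have hi := Finite.injective_iff_surjective.2 hs
    have hd : 3 ∣ Nat.card A := by
      obtain ⟨n, hn⟩ := h3.exists_card_eq
      rw [hn]
      refine dvd_pow_self 3 fun h0 => ?_
      rw [h0, pow_zero, Nat.card_eq_one_iff_unique] at hn
      obtain ⟨h1, -⟩ := hn
      exact ha₀ (Subsingleton.elim _ _)
    obtain ⟨x, hx⟩ := exists_prime_orderOf_dvd_card' (G := A) 3 hd
    have h1 : (powMonoidHom 3 : A →* A) x = (powMonoidHom 3 : A →* A) 1 := by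
      rw [map_one, powMonoidHom_apply, ← hx, pow_orderOf_eq_one]
    have h2 := hi h1
    rw [h2, orderOf_one] at hx
    omega
  obtain ⟨b, hb⟩ := hC
  have hz : ∀ x : Additive (A ⧸ C), 3 • x = 0 := by
    intro x
    obtain ⟨y, hy⟩ := QuotientGroup.mk_surjective (Additive.toMul x)
    have h1 : x = Additive.ofMul (QuotientGroup.mk y : A ⧸ C) := by
      rw [hy]
      rfl
    rw [h1, ← ofMul_pow, ← QuotientGroup.mk_pow]
    have h2 : ((y ^ 3 : A) : A ⧸ C) = 1 := (QuotientGroup.eq_one_iff _).2 ⟨y, rfl⟩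
    rw [h2]
    rfl
  letI : Module (ZMod 3) (Additive (A ⧸ C)) := AddCommGroup.zmodModule hz
  have hne : Additive.ofMul (QuotientGroup.mk b : A ⧸ C) ≠ 0 := by
    intro h
    have h1 : (QuotientGroup.mk b : A ⧸ C) = 1 := h
    exact hb ((QuotientGroup.eq_one_iff _).1 h1)
  obtain ⟨φ, hφ⟩ : ∃ φ : Additive (A ⧸ C) →ₗ[ZMod 3] ZMod 3, φ (Additive.ofMul (QuotientGroup.mk b : A ⧸ C)) ≠ 0 := by
    by_contra hcon
    push Not at hcon
    exact hne ((Module.forall_dual_apply_eq_zero_iff (ZMod 3) _).1 hcon)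
  refine ⟨{ toFun := fun a => Multiplicative.ofAdd (φ (Additive.ofMul (QuotientGroup.mk a : A ⧸ C)))
            map_one' := ?_
            map_mul' := ?_ }, b, ?_⟩
  · rw [QuotientGroup.mk_one, ofMul_one, map_zero]
    rfl
  · intro x y
    rw [QuotientGroup.mk_mul, ofMul_mul, map_add]
    rfl
  · intro h
    exact hφ h

theorem exists_root : ∃ ω : AlgebraicClosure (ZMod 3), ω ^ 5 = 1 ∧ ω ≠ 1 := by
  have hp : Fact (Nat.Prime 3) := ⟨Nat.prime_three⟩
  have hch : CharP (AlgebraicClosure (ZMod 3)) 3 :=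
    charP_of_injective_algebraMap (algebraMap (ZMod 3) (AlgebraicClosure (ZMod 3))).injective 3
  have h30 : (3 : AlgebraicClosure (ZMod 3)) = 0 := by
    have h1 := CharP.cast_eq_zero (AlgebraicClosure (ZMod 3)) 3
    simpa using h1
  obtain ⟨P, hP⟩ : ∃ P : Polynomial (AlgebraicClosure (ZMod 3)),
      P = Polynomial.X ^ 4 + Polynomial.X ^ 3 + Polynomial.X ^ 2 + Polynomial.X + 1 := ⟨_, rfl⟩
  have hdeg : P.degree = 4 := by
    rw [hP]
    compute_degree!
  obtain ⟨ω, hω⟩ := IsAlgClosed.exists_root P (by rw [hdeg]; norm_num)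
  have h1 : ω ^ 4 + ω ^ 3 + ω ^ 2 + ω + 1 = 0 := by
    have h2 : P.eval ω = 0 := hω
    rw [hP] at h2
    simpa using h2
  refine ⟨ω, ?_, ?_⟩
  · linear_combination (ω - 1) * h1
  · intro h
    rw [h] at h1
    have h2 : (1 : AlgebraicClosure (ZMod 3)) = 0 := by
      linear_combination 2 * h30 - h1
    exact one_ne_zero h2

end Pool.Agent.H59.FH
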