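import Pool.Agent.H59.FH.For
import Pool.Agent.H59.FH.Fou
import Pool.Agent.H59.FH.Grp
import Pool.Agent.H59.FH.Gen
import Pool.Agent.H59.FH.Hom

/-! # [H59 FH Asm] splitting automorphisms of order five of `3`-groups: the orbit subgroups have class at most five -/

set_option autoImplicit false

open scoped commutatorElement

namespace Pool.Agent.H59.FH

universe u

/-- the case `lcs 6 = ⊥` -/
theorem class_five_bot {H : Type u} [Group H] [Finite H] (h3 : IsPGroup 3 H) (hc : lcs H 6 = ⊥)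
    (x : ZMod 5 → H) (φ : MulAut H) (hx : ∀ j, φ (x j) = x (j + 1))
    (hs : ∀ g : H, g * φ g * φ (φ g) * φ (φ (φ g)) * φ (φ (φ (φ g))) = 1)
    (hgen : Subgroup.closure (Set.range x) = ⊤) : lcs H 5 = ⊥ := by
  by_contra hne
  have hcomm : ∀ a ∈ lcs H 5, ∀ b ∈ lcs H 5, a * b = b * a := by
    intro a ha b _
    have h1 : ⁅a, b⁆ ∈ lcs H 6 := Subgroup.commutator_mem_commutator ha (Subgroup.mem_top b)
    rw [hc, Subgroup.mem_bot, commutatorElement_eq_one_iff_mul_comm] at h1
    exact h1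
  let _ : CommGroup (lcs H 5) :=
    { (inferInstance : Group (lcs H 5)) with
      mul_comm := fun a b => Subtype.ext (hcomm a a.2 b b.2) }
  obtain ⟨b, hb, hb1⟩ : ∃ b ∈ lcs H 5, b ≠ 1 := by
    by_contra hcon
    push Not at hcon
    exact hne ((Subgroup.eq_bot_iff_forall _).2 hcon)
  obtain ⟨χ₀, a, ha⟩ := exists_chi (A := lcs H 5) (h3.to_subgroup _)
    ⟨⟨b, hb⟩, fun h => hb1 (congrArg Subtype.val h)⟩
  classical
  let χ : H → AlgebraicClosure (ZMod 3) := fun g =>
    if h : g ∈ lcs H 5 then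
      algebraMap (ZMod 3) (AlgebraicClosure (ZMod 3)) (Multiplicative.toAdd (χ₀ ⟨g, h⟩)) else 0
  have hχv : ∀ (g : H) (hg : g ∈ lcs H 5), χ g =
      algebraMap (ZMod 3) (AlgebraicClosure (ZMod 3)) (Multiplicative.toAdd (χ₀ ⟨g, hg⟩)) := by
    intro g hg
    exact dif_pos hg
  have hχ : ∀ g ∈ lcs H 5, ∀ h ∈ lcs H 5, χ (g * h) = χ g + χ h := by
    intro g hg h hh
    rw [hχv g hg, hχv h hh, hχv (g * h) (mul_mem hg hh), ← map_add, ← toAdd_mul, ← map_mul]
    rfl
  have hIx := lc_ix hc x φ hx hs χ hχ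
  obtain ⟨ω, hω, hω1⟩ := exists_root
  obtain ⟨E, hE, hinv⟩ := fourier hω hω1 hIx
  have h0 : ∀ w : W, w.length = 6 → χ (lc x w) = 0 := hinv (formal hE)
  have hle := lcs_gen x hgen 5
  rw [hc, sup_bot_eq] at hle
  have hmem : ∀ w : W, w.length = 6 → lc x w ∈ lcs H 5 := by
    intro w hw
    obtain ⟨c, t, rfl⟩ : ∃ c t, w = c :: t :=
      List.exists_cons_of_ne_nil (by rintro rfl; simp at hw)
    have ht : t.length = 5 := by simpa using hw
    have h1 := tl_mem x (n := 0) t (x c) (by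
      show x c ∈ (⊤ : Subgroup H)
      exact Subgroup.mem_top _)
    rw [ht] at h1
    exact h1
  have hle2 : Subgroup.closure {g | ∃ w : W, w.length = 5 + 1 ∧ g = lc x w} ≤
      (χ₀.ker).map (lcs H 5).subtype := by
    rw [Subgroup.closure_le]
    rintro g ⟨w, hw, rfl⟩
    refine ⟨⟨lc x w, hmem w hw⟩, ?_, rfl⟩
    rw [SetLike.mem_coe, MonoidHom.mem_ker]
    have h1 := h0 w hw
    rw [hχv _ (hmem w hw), map_eq_zero] at h1
    exact h1
  obtain ⟨a', ha', haa⟩ := (hle.trans hle2) a.2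
  apply ha
  have h2 : a' = a := Subtype.ext haa
  rw [← h2]
  exact ha'

/-- class at most five -/
theorem class_five {H : Type u} [Group H] [Finite H] (h3 : IsPGroup 3 H) (x : ZMod 5 → H)
    (φ : MulAut H) (hx : ∀ j, φ (x j) = x (j + 1))
    (hs : ∀ g : H, g * φ g * φ (φ g) * φ (φ (φ g)) * φ (φ (φ (φ g))) = 1)
    (hgen : Subgroup.closure (Set.range x) = ⊤) : lcs H 5 = ⊥ := by
  have hN : (lcs H 6).Normal := by
    unfold lcs
    infer_instance
  have hch : (lcs H 6).Characteristic := by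
    unfold lcs
    infer_instance
  have hmap : ∀ n, lcs (H ⧸ lcs H 6) n = (lcs H n).map (QuotientGroup.mk' (lcs H 6)) := by
    intro n
    have h1 := Subgroup.map_lowerCentralSeries (S := (⊤ : Subgroup H)) (QuotientGroup.mk' (lcs H 6)) n
    rw [Subgroup.map_top_of_surjective _ (QuotientGroup.mk'_surjective _)] at h1
    exact h1.symm
  have hφN : (lcs H 6).map φ.toMonoidHom = lcs H 6 := by
    have h1 := Subgroup.characteristic_iff_map_eq.1 hch φ
    exact h1
  let φ' : MulAut (H ⧸ lcs H 6) := QuotientGroup.congr (lcs H 6) (lcs H 6) φ hφN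
  have hφ' : ∀ g : H, φ' (QuotientGroup.mk' (lcs H 6) g) = QuotientGroup.mk' (lcs H 6) (φ g) :=
    fun g => rfl
  have hQ : lcs (H ⧸ lcs H 6) 5 = ⊥ := by
    apply class_five_bot (H := H ⧸ lcs H 6) ?_ ?_ (fun j => QuotientGroup.mk' (lcs H 6) (x j)) φ'
    · intro j
      rw [hφ', hx]
    · intro y
      obtain ⟨g, rfl⟩ := QuotientGroup.mk'_surjective (lcs H 6) y
      rw [hφ', hφ', hφ', hφ', ← map_mul, ← map_mul, ← map_mul, ← map_mul, hs, map_one]
    · have h1 : Set.range (fun j => QuotientGroup.mk' (lcs H 6) (x j)) =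
          (QuotientGroup.mk' (lcs H 6)) '' Set.range x := by
        rw [← Set.range_comp]
        rfl
      rw [h1, ← MonoidHom.map_closure, hgen, Subgroup.map_top_of_surjective _
        (QuotientGroup.mk'_surjective _)]
    · exact h3.to_quotient _
    · rw [hmap, Subgroup.map_eq_bot_iff, QuotientGroup.ker_mk']
  have hle : lcs H 5 ≤ lcs H 6 := by
    rw [hmap, Subgroup.map_eq_bot_iff, QuotientGroup.ker_mk'] at hQ
    exact hQ
  have hnil : Group.IsNilpotent H := by
    have : Fact (Nat.Prime 3) := ⟨Nat.prime_three⟩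
    exact h3.isNilpotent
  obtain ⟨n, hn⟩ := Subgroup.nilpotent_iff_lowerCentralSeries.1 hnil
  have hall : ∀ k, lcs H 5 ≤ lcs H (5 + k) := by
    intro k
    induction k with
    | zero => exact le_rfl
    | succ k ih =>
      calc lcs H 5 ≤ lcs H 6 := hle
        _ = ⁅lcs H 5, ⊤⁆ := rfl
        _ ≤ ⁅lcs H (5 + k), ⊤⁆ := Subgroup.commutator_mono ih le_rfl
        _ = lcs H (5 + (k + 1)) := rfl
  rw [eq_bot_iff]
  calc lcs H 5 ≤ lcs H (5 + n) := hall n
    _ ≤ lcs H n := Subgroup.lowerCentralSeries_antitone _ (Nat.le_add_left n 5)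
    _ = ⊥ := hn

end Pool.Agent.H59.FH
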