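import Mathlib

/-! # [H59 FH Def] words in `ZMod 5`, left normed commutators of weight six: definitions -/

set_option autoImplicit false

open scoped commutatorElement

namespace Pool.Agent.H59.FH

/-- words -/
abbrev W : Type := List (ZMod 5)

/-- conditions on a function of the words of length six, eigenvector side -/
structure Ax {K : Type} [Field K] (E : W → K) : Prop where
  pre : ∀ U T : W, U ≠ [] → U.length + T.length = 6 → U.sum = 0 → E (U ++ T) = 0
  nul : ∀ U T : W, U.length + T.length = 5 → E (U ++ 0 :: T) = 0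
  anti : ∀ (a b : ZMod 5) (T : W), T.length = 4 → E (a :: b :: T) = - E (b :: a :: T)
  sq : ∀ (a b : ZMod 5) (T : W), T.length = 2 → E (a :: b :: a :: b :: T) = E (a :: b :: b :: a :: T)
  dd : ∀ (U : W) (a b : ZMod 5) (T : W), U ≠ [] → U.length + T.length = 4 → a + b = 0 →
    E (U ++ a :: b :: T) = E (U ++ b :: a :: T)
  tt : ∀ (U : W) (a b c : ZMod 5) (T : W), U ≠ [] → U.length + T.length = 3 → a + b + c = 0 →
    E (U ++ a :: b :: c :: T) - E (U ++ b :: a :: c :: T) - E (U ++ c :: a :: b :: T) +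
      E (U ++ c :: b :: a :: T) = 0

/-- the same conditions, index side -/
structure Ix {K : Type} [Field K] (e : W → K) : Prop where
  pre : ∀ u t : W, u ≠ [] → u.length + t.length = 6 → ∑ j : ZMod 5, e (u.map (fun i => i + j) ++ t) = 0
  nul : ∀ u t : W, u.length + t.length = 5 → ∑ j : ZMod 5, e (u ++ j :: t) = 0
  anti : ∀ (a b : ZMod 5) (t : W), t.length = 4 → e (a :: b :: t) = - e (b :: a :: t)
  sq : ∀ (a b c d : ZMod 5) (t : W), t.length = 2 →
    e (a :: b :: c :: d :: t) - e (a :: b :: d :: c :: t) + e (c :: d :: a :: b :: t) -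
      e (c :: d :: b :: a :: t) = 0
  dd : ∀ (u : W) (a b : ZMod 5) (t : W), u ≠ [] → u.length + t.length = 4 →
    ∑ j : ZMod 5, (e (u ++ (a + j) :: (b + j) :: t) - e (u ++ (b + j) :: (a + j) :: t)) = 0
  tt : ∀ (u : W) (a b c : ZMod 5) (t : W), u ≠ [] → u.length + t.length = 3 →
    ∑ j : ZMod 5, (e (u ++ (a + j) :: (b + j) :: (c + j) :: t) -
      e (u ++ (b + j) :: (a + j) :: (c + j) :: t) - e (u ++ (c + j) :: (a + j) :: (b + j) :: t) +
      e (u ++ (c + j) :: (b + j) :: (a + j) :: t)) = 0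

/-- `[h, x_j, …]` for `j` in the list -/
def tl {H : Type*} [Group H] (x : ZMod 5 → H) (t : W) (h : H) : H := t.foldl (fun h j => ⁅h, x j⁆) h

/-- the left normed commutator of the `x_j` -/
def lc {H : Type*} [Group H] (x : ZMod 5 → H) : W → H
  | [] => 1
  | a :: t => tl x t (x a)

end Pool.Agent.H59.FH
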