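import Pool.Agent.H59.FH.Asm
import Pool.Agent.H59.FE.Top

/-! # [H59 FH Fin] splitting automorphisms of order five: the condition at `q = 3` holds -/

set_option autoImplicit false

open scoped commutatorElement

namespace Pool.Agent.H59.FH

open Pool.Agent.H59.PO Pool.Agent.H59.FE

universe u

theorem orb_five {G : Type u} [Group G] {φ : MulAut G} (hS : Spl 5 φ) (g : G) (m : ℕ)
    (hg : g ^ 3 ^ m = 1) : (Orb 5 φ g).lowerCentralSeries 5 = ⊥ := by
  have hfin : Finite (Orb 5 φ g) := orb_finite hS g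
  have h3 : IsPGroup 3 (Orb 5 φ g) := orb_pgroup hS Nat.prime_three m g hg
  let ψ : MulAut (Orb 5 φ g) := res φ (Orb 5 φ g) (orb_map hS g)
  have hψ : ∀ (i : ℕ) (y : Orb 5 φ g), (((ψ ^ i) y : Orb 5 φ g) : G) = (φ ^ i) (y : G) :=
    fun i y => res_pow φ _ (orb_map hS g) i y
  have h5 : ψ ^ 5 = 1 := by
    ext y
    rw [hψ, hS.pow]
    rfl
  have key : lcs (Orb 5 φ g) 5 = ⊥ := by
    apply class_five h3 (fun j : ZMod 5 => (ψ ^ j.val) ⟨g, mem_orb hS g⟩) ψ
    · intro j
      show ψ ((ψ ^ j.val) _) = (ψ ^ (j + 1).val) _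
      rw [← MulAut.mul_apply, ← pow_succ']
      have h1 : (j + 1).val = (j.val + 1) % 5 := by
        rw [ZMod.val_add]
        rfl
      have h2 : ψ ^ (j.val + 1) = ψ ^ ((j.val + 1) % 5) := by
        conv_lhs => rw [← Nat.div_add_mod (j.val + 1) 5]
        rw [pow_add, pow_mul, h5, one_pow, one_mul]
      rw [h1, h2]
    · intro y
      have h1 := hS.split (y : G)
      apply Subtype.ext
      simp only [List.range_succ, List.range_zero, List.nil_append, List.cons_append,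
        List.map_cons, List.map_nil, List.prod_cons, List.prod_nil, mul_one, pow_zero,
        MulAut.one_apply] at h1
      have e2 : ψ (ψ y) = (ψ ^ 2) y := rfl
      have e3 : ψ (ψ (ψ y)) = (ψ ^ 3) y := rfl
      have e4 : ψ (ψ (ψ (ψ y))) = (ψ ^ 4) y := rfl
      have e1 : ψ y = (ψ ^ 1) y := by rw [pow_one]
      rw [e4, e3, e2, e1]
      rw [Subgroup.coe_mul, Subgroup.coe_mul, Subgroup.coe_mul, Subgroup.coe_mul, hψ, hψ, hψ, hψ,
        Subgroup.coe_one, mul_assoc, mul_assoc, mul_assoc]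
      exact h1
    · apply Subgroup.map_injective (Subgroup.subtype_injective (Orb 5 φ g))
      rw [MonoidHom.map_closure, ← Set.range_comp, ← MonoidHom.range_eq_map,
        Subgroup.range_subtype]
      show Subgroup.closure _ = Subgroup.closure _
      congr 1
      ext y
      constructor
      · rintro ⟨j, rfl⟩
        exact ⟨(j : Fin 5), (hψ j.val ⟨g, mem_orb hS g⟩).symm⟩
      · rintro ⟨i, rfl⟩
        exact ⟨(i : ZMod 5), hψ (i : ℕ) ⟨g, mem_orb hS g⟩⟩
  rw [← Subgroup.top_subtype_lowerCentralSeries]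
  have h1 : (⊤ : Subgroup (Orb 5 φ g)).lowerCentralSeries 5 = ⊥ := key
  rw [h1, Subgroup.map_bot]

theorem hyp_five {G : Type u} [Group G] {φ : MulAut G} (hS : Spl 5 φ) : Hyp φ 3 5 := by
  intro g m hg i
  rw [eq_bot_iff, ← orb_five hS g m hg]
  exact Subgroup.lowerCentralSeries_mono 5 (pr_le hS g i)

theorem main5 {G : Type u} [Group G] {p : ℕ} {φ : MulAut G} (hS : Spl p φ) (h2 : Hyp φ 2 3)
    (h3 : p ≠ 5 → Hyp φ 3 5) (h5 : ∀ q : ℕ, q.Prime → 5 ≤ q → Hyp φ q 2) :
    Pool.Agent.H76.MB.LF G ∧ ∀ K : Subgroup G, K.FG → Group.IsNilpotent K := by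
  apply main' hS h2 ?_ h5
  by_cases hp : p = 5
  · subst hp
    exact hyp_five hS
  · exact h3 hp

end Pool.Agent.H59.FH
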