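import Pool.Agent.H59.FH.Def

/-! # [H59 FH For] the formal identities (helper59) -/

set_option autoImplicit false

namespace Pool.Agent.H59.FH

private theorem p14 {K : Type} [Field K] {E : W → K} (h : Ax E) (T : W) (hT : T.length = 4) :
    E (1 :: 4 :: T) = 0 := by
  exact h.pre [1, 4] T (by simp) (by simp [hT]) (by decide)

private theorem p23 {K : Type} [Field K] {E : W → K} (h : Ax E) (T : W) (hT : T.length = 4) :
    E (2 :: 3 :: T) = 0 := by
  exact h.pre [2, 3] T (by simp) (by simp [hT]) (by decide)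

private theorem p32 {K : Type} [Field K] {E : W → K} (h : Ax E) (T : W) (hT : T.length = 4) :
    E (3 :: 2 :: T) = 0 := by
  exact h.pre [3, 2] T (by simp) (by simp [hT]) (by decide)

private theorem p41 {K : Type} [Field K] {E : W → K} (h : Ax E) (T : W) (hT : T.length = 4) :
    E (4 :: 1 :: T) = 0 := by
  exact h.pre [4, 1] T (by simp) (by simp [hT]) (by decide)

private theorem r11 {K : Type} [Field K] [CharP K 3] {E : W → K} (h : Ax E) (T : W) (hT : T.length = 4) :
    E (1 :: 1 :: T) = 0 := by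
  have r := h.anti 1 1 T hT
  have h3 : (3 : K) = 0 := by exact_mod_cast CharP.cast_eq_zero K 3
  linear_combination (-1 * r) + (1) * E (1 :: 1 :: T) * h3

private theorem r21 {K : Type} [Field K] [CharP K 3] {E : W → K} (h : Ax E) (T : W) (hT : T.length = 4) :
    E (2 :: 1 :: T) = -E (1 :: 2 :: T) := by
  have r := h.anti 1 2 T hT
  have h3 : (3 : K) = 0 := by exact_mod_cast CharP.cast_eq_zero K 3
  linear_combination 1 * r

private theorem r22 {K : Type} [Field K] [CharP K 3] {E : W → K} (h : Ax E) (T : W) (hT : T.length = 4) :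
    E (2 :: 2 :: T) = 0 := by
  have r := h.anti 2 2 T hT
  have h3 : (3 : K) = 0 := by exact_mod_cast CharP.cast_eq_zero K 3
  linear_combination (-1 * r) + (1) * E (2 :: 2 :: T) * h3

private theorem r31 {K : Type} [Field K] [CharP K 3] {E : W → K} (h : Ax E) (T : W) (hT : T.length = 4) :
    E (3 :: 1 :: T) = -E (1 :: 3 :: T) := by
  have r := h.anti 1 3 T hT
  have h3 : (3 : K) = 0 := by exact_mod_cast CharP.cast_eq_zero K 3
  linear_combination 1 * r

private theorem r33 {K : Type} [Field K] [CharP K 3] {E : W → K} (h : Ax E) (T : W) (hT : T.length = 4) :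
    E (3 :: 3 :: T) = 0 := by
  have r := h.anti 3 3 T hT
  have h3 : (3 : K) = 0 := by exact_mod_cast CharP.cast_eq_zero K 3
  linear_combination (-1 * r) + (1) * E (3 :: 3 :: T) * h3

private theorem r42 {K : Type} [Field K] [CharP K 3] {E : W → K} (h : Ax E) (T : W) (hT : T.length = 4) :
    E (4 :: 2 :: T) = -E (2 :: 4 :: T) := by
  have r := h.anti 2 4 T hT
  have h3 : (3 : K) = 0 := by exact_mod_cast CharP.cast_eq_zero K 3
  linear_combination 1 * r

private theorem r43 {K : Type} [Field K] [CharP K 3] {E : W → K} (h : Ax E) (T : W) (hT : T.length = 4) :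
    E (4 :: 3 :: T) = -E (3 :: 4 :: T) := by
  have r := h.anti 3 4 T hT
  have h3 : (3 : K) = 0 := by exact_mod_cast CharP.cast_eq_zero K 3
  linear_combination 1 * r

private theorem r44 {K : Type} [Field K] [CharP K 3] {E : W → K} (h : Ax E) (T : W) (hT : T.length = 4) :
    E (4 :: 4 :: T) = 0 := by
  have r := h.anti 4 4 T hT
  have h3 : (3 : K) = 0 := by exact_mod_cast CharP.cast_eq_zero K 3
  linear_combination (-1 * r) + (1) * E (4 :: 4 :: T) * h3

private theorem p343 {K : Type} [Field K] {E : W → K} (h : Ax E) (T : W) (hT : T.length = 3) :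
    E (3 :: 4 :: 3 :: T) = 0 := by
  exact h.pre [3, 4, 3] T (by simp) (by simp [hT]) (by decide)

private theorem p244 {K : Type} [Field K] {E : W → K} (h : Ax E) (T : W) (hT : T.length = 3) :
    E (2 :: 4 :: 4 :: T) = 0 := by
  exact h.pre [2, 4, 4] T (by simp) (by simp [hT]) (by decide)

private theorem p131 {K : Type} [Field K] {E : W → K} (h : Ax E) (T : W) (hT : T.length = 3) :
    E (1 :: 3 :: 1 :: T) = 0 := by
  exact h.pre [1, 3, 1] T (by simp) (by simp [hT]) (by decide)

private theorem p122 {K : Type} [Field K] {E : W → K} (h : Ax E) (T : W) (hT : T.length = 3) :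
    E (1 :: 2 :: 2 :: T) = 0 := by
  exact h.pre [1, 2, 2] T (by simp) (by simp [hT]) (by decide)

private theorem r243 {K : Type} [Field K] [CharP K 3] {E : W → K} (h : Ax E) (T : W) (hT : T.length = 3) :
    E (2 :: 4 :: 3 :: T) = E (3 :: 4 :: 2 :: T) := by
  have r := h.dd [4] 2 3 T (by simp) (by simp [hT]) (by decide)
  simp only [List.cons_append, List.nil_append] at r
  have e1 : E (4 :: 2 :: 3 :: T) = -E (2 :: 4 :: 3 :: T) := by
    simp only [r42 h (3 :: T) (by simp [hT])]
  have e2 : E (4 :: 3 :: 2 :: T) = -E (3 :: 4 :: 2 :: T) := by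
    simp only [r43 h (2 :: T) (by simp [hT])]
  rw [e1, e2] at r
  have h3 : (3 : K) = 0 := by exact_mod_cast CharP.cast_eq_zero K 3
  linear_combination (-1 * r)

private theorem r134 {K : Type} [Field K] [CharP K 3] {E : W → K} (h : Ax E) (T : W) (hT : T.length = 3) :
    E (1 :: 3 :: 4 :: T) = -E (3 :: 4 :: 1 :: T) := by
  have r := h.dd [3] 1 4 T (by simp) (by simp [hT]) (by decide)
  simp only [List.cons_append, List.nil_append] at r
  have e1 : E (3 :: 1 :: 4 :: T) = -E (1 :: 3 :: 4 :: T) := by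
    simp only [r31 h (4 :: T) (by simp [hT])]
  rw [e1] at r
  have h3 : (3 : K) = 0 := by exact_mod_cast CharP.cast_eq_zero K 3
  linear_combination (-1 * r)

private theorem r123 {K : Type} [Field K] [CharP K 3] {E : W → K} (h : Ax E) (T : W) (hT : T.length = 3) :
    E (1 :: 2 :: 3 :: T) = E (1 :: 3 :: 2 :: T) := by
  have r := h.dd [1] 2 3 T (by simp) (by simp [hT]) (by decide)
  simp only [List.cons_append, List.nil_append] at r
  have h3 : (3 : K) = 0 := by exact_mod_cast CharP.cast_eq_zero K 3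
  linear_combination 1 * r

private theorem r124 {K : Type} [Field K] [CharP K 3] {E : W → K} (h : Ax E) (T : W) (hT : T.length = 3) :
    E (1 :: 2 :: 4 :: T) = -E (2 :: 4 :: 1 :: T) := by
  have r := h.dd [2] 1 4 T (by simp) (by simp [hT]) (by decide)
  simp only [List.cons_append, List.nil_append] at r
  have e1 : E (2 :: 1 :: 4 :: T) = -E (1 :: 2 :: 4 :: T) := by
    simp only [r21 h (4 :: T) (by simp [hT])]
  rw [e1] at r
  have h3 : (3 : K) = 0 := by exact_mod_cast CharP.cast_eq_zero K 3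
  linear_combination (-1 * r)

private theorem p3444 {K : Type} [Field K] {E : W → K} (h : Ax E) (T : W) (hT : T.length = 2) :
    E (3 :: 4 :: 4 :: 4 :: T) = 0 := by
  exact h.pre [3, 4, 4, 4] T (by simp) (by simp [hT]) (by decide)

private theorem p3421 {K : Type} [Field K] {E : W → K} (h : Ax E) (T : W) (hT : T.length = 2) :
    E (3 :: 4 :: 2 :: 1 :: T) = 0 := by
  exact h.pre [3, 4, 2, 1] T (by simp) (by simp [hT]) (by decide)

private theorem p2422 {K : Type} [Field K] {E : W → K} (h : Ax E) (T : W) (hT : T.length = 2) :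
    E (2 :: 4 :: 2 :: 2 :: T) = 0 := by
  exact h.pre [2, 4, 2, 2] T (by simp) (by simp [hT]) (by decide)

private theorem p3412 {K : Type} [Field K] {E : W → K} (h : Ax E) (T : W) (hT : T.length = 2) :
    E (3 :: 4 :: 1 :: 2 :: T) = 0 := by
  exact h.pre [3, 4, 1, 2] T (by simp) (by simp [hT]) (by decide)

private theorem p1333 {K : Type} [Field K] {E : W → K} (h : Ax E) (T : W) (hT : T.length = 2) :
    E (1 :: 3 :: 3 :: 3 :: T) = 0 := by
  exact h.pre [1, 3, 3, 3] T (by simp) (by simp [hT]) (by decide)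

private theorem p2413 {K : Type} [Field K] {E : W → K} (h : Ax E) (T : W) (hT : T.length = 2) :
    E (2 :: 4 :: 1 :: 3 :: T) = 0 := by
  exact h.pre [2, 4, 1, 3] T (by simp) (by simp [hT]) (by decide)

private theorem p1324 {K : Type} [Field K] {E : W → K} (h : Ax E) (T : W) (hT : T.length = 2) :
    E (1 :: 3 :: 2 :: 4 :: T) = 0 := by
  exact h.pre [1, 3, 2, 4] T (by simp) (by simp [hT]) (by decide)

private theorem p1211 {K : Type} [Field K] {E : W → K} (h : Ax E) (T : W) (hT : T.length = 2) :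
    E (1 :: 2 :: 1 :: 1 :: T) = 0 := by
  exact h.pre [1, 2, 1, 1] T (by simp) (by simp [hT]) (by decide)

private theorem r3443 {K : Type} [Field K] [CharP K 3] {E : W → K} (h : Ax E) (T : W) (hT : T.length = 2) :
    E (3 :: 4 :: 4 :: 3 :: T) = 0 := by
  have r := h.sq 3 4 T hT
  have e1 : E (3 :: 4 :: 3 :: 4 :: T) = 0 := by
    simp only [p343 h (4 :: T) (by simp [hT])]
  rw [e1] at r
  have h3 : (3 : K) = 0 := by exact_mod_cast CharP.cast_eq_zero K 3
  linear_combination (-1 * r)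

private theorem r3423 {K : Type} [Field K] [CharP K 3] {E : W → K} (h : Ax E) (T : W) (hT : T.length = 2) :
    E (3 :: 4 :: 2 :: 3 :: T) = 0 := by
  have r := h.dd [3, 4] 2 3 T (by simp) (by simp [hT]) (by decide)
  simp only [List.cons_append, List.nil_append] at r
  have e1 : E (3 :: 4 :: 3 :: 2 :: T) = 0 := by
    simp only [p343 h (2 :: T) (by simp [hT])]
  rw [e1] at r
  have h3 : (3 : K) = 0 := by exact_mod_cast CharP.cast_eq_zero K 3
  linear_combination 1 * r

private theorem r3424 {K : Type} [Field K] [CharP K 3] {E : W → K} (h : Ax E) (T : W) (hT : T.length = 2) :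
    E (3 :: 4 :: 2 :: 4 :: T) = -E (3 :: 4 :: 4 :: 2 :: T) := by
  have r := h.tt [3] 2 4 4 T (by simp) (by simp [hT]) (by decide)
  simp only [List.cons_append, List.nil_append] at r
  have e1 : E (3 :: 2 :: 4 :: 4 :: T) = 0 := by
    simp only [p32 h (4 :: 4 :: T) (by simp [hT])]
  rw [e1] at r
  have h3 : (3 : K) = 0 := by exact_mod_cast CharP.cast_eq_zero K 3
  linear_combination 1 * r + (1) * E (3 :: 4 :: 2 :: 4 :: T) * h3

private theorem r2423 {K : Type} [Field K] [CharP K 3] {E : W → K} (h : Ax E) (T : W) (hT : T.length = 2) :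
    E (2 :: 4 :: 2 :: 3 :: T) = E (3 :: 4 :: 2 :: 2 :: T) := by
  have r := h.dd [2, 4] 2 3 T (by simp) (by simp [hT]) (by decide)
  simp only [List.cons_append, List.nil_append] at r
  have e1 : E (2 :: 4 :: 3 :: 2 :: T) = E (3 :: 4 :: 2 :: 2 :: T) := by
    simp only [r243 h (2 :: T) (by simp [hT])]
  rw [e1] at r
  have h3 : (3 : K) = 0 := by exact_mod_cast CharP.cast_eq_zero K 3
  linear_combination 1 * r

private theorem r2424 {K : Type} [Field K] [CharP K 3] {E : W → K} (h : Ax E) (T : W) (hT : T.length = 2) :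
    E (2 :: 4 :: 2 :: 4 :: T) = 0 := by
  have r := h.sq 2 4 T hT
  have e1 : E (2 :: 4 :: 4 :: 2 :: T) = 0 := by
    simp only [p244 h (2 :: T) (by simp [hT])]
  rw [e1] at r
  have h3 : (3 : K) = 0 := by exact_mod_cast CharP.cast_eq_zero K 3
  linear_combination 1 * r

private theorem r3411 {K : Type} [Field K] [CharP K 3] {E : W → K} (h : Ax E) (T : W) (hT : T.length = 2) :
    E (3 :: 4 :: 1 :: 1 :: T) = 0 := by
  have r := h.dd [1, 3] 1 4 T (by simp) (by simp [hT]) (by decide)
  simp only [List.cons_append, List.nil_append] at r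
  have e1 : E (1 :: 3 :: 1 :: 4 :: T) = 0 := by
    simp only [p131 h (4 :: T) (by simp [hT])]
  have e2 : E (1 :: 3 :: 4 :: 1 :: T) = -E (3 :: 4 :: 1 :: 1 :: T) := by
    simp only [r134 h (1 :: T) (by simp [hT])]
  rw [e1, e2] at r
  have h3 : (3 : K) = 0 := by exact_mod_cast CharP.cast_eq_zero K 3
  linear_combination 1 * r

private theorem r3414 {K : Type} [Field K] [CharP K 3] {E : W → K} (h : Ax E) (T : W) (hT : T.length = 2) :
    E (3 :: 4 :: 1 :: 4 :: T) = E (3 :: 4 :: 4 :: 1 :: T) := by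
  have r := h.dd [3, 4] 1 4 T (by simp) (by simp [hT]) (by decide)
  simp only [List.cons_append, List.nil_append] at r
  have h3 : (3 : K) = 0 := by exact_mod_cast CharP.cast_eq_zero K 3
  linear_combination 1 * r

private theorem r1331 {K : Type} [Field K] [CharP K 3] {E : W → K} (h : Ax E) (T : W) (hT : T.length = 2) :
    E (1 :: 3 :: 3 :: 1 :: T) = 0 := by
  have r := h.sq 1 3 T hT
  have e1 : E (1 :: 3 :: 1 :: 3 :: T) = 0 := by
    simp only [p131 h (3 :: T) (by simp [hT])]
  rw [e1] at r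
  have h3 : (3 : K) = 0 := by exact_mod_cast CharP.cast_eq_zero K 3
  linear_combination (-1 * r)

private theorem r1334 {K : Type} [Field K] [CharP K 3] {E : W → K} (h : Ax E) (T : W) (hT : T.length = 2) :
    E (1 :: 3 :: 3 :: 4 :: T) = E (3 :: 4 :: 1 :: 3 :: T) := by
  have r := h.tt [1] 3 4 3 T (by simp) (by simp [hT]) (by decide)
  simp only [List.cons_append, List.nil_append] at r
  have e1 : E (1 :: 3 :: 4 :: 3 :: T) = -E (3 :: 4 :: 1 :: 3 :: T) := by
    simp only [r134 h (3 :: T) (by simp [hT])]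
  have e2 : E (1 :: 4 :: 3 :: 3 :: T) = 0 := by
    simp only [p14 h (3 :: 3 :: T) (by simp [hT])]
  rw [e1, e2] at r
  have h3 : (3 : K) = 0 := by exact_mod_cast CharP.cast_eq_zero K 3
  linear_combination (-1 * r) + (-1) * E (3 :: 4 :: 1 :: 3 :: T) * h3

private theorem r2412 {K : Type} [Field K] [CharP K 3] {E : W → K} (h : Ax E) (T : W) (hT : T.length = 2) :
    E (2 :: 4 :: 1 :: 2 :: T) = -E (2 :: 4 :: 2 :: 1 :: T) := by
  have r := h.tt [4] 1 2 2 T (by simp) (by simp [hT]) (by decide)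
  simp only [List.cons_append, List.nil_append] at r
  have e1 : E (4 :: 1 :: 2 :: 2 :: T) = 0 := by
    simp only [p41 h (2 :: 2 :: T) (by simp [hT])]
  have e2 : E (4 :: 2 :: 1 :: 2 :: T) = -E (2 :: 4 :: 1 :: 2 :: T) := by
    simp only [r42 h (1 :: 2 :: T) (by simp [hT])]
  have e3 : E (4 :: 2 :: 2 :: 1 :: T) = -E (2 :: 4 :: 2 :: 1 :: T) := by
    simp only [r42 h (2 :: 1 :: T) (by simp [hT])]
  rw [e1, e2, e3] at r
  have h3 : (3 : K) = 0 := by exact_mod_cast CharP.cast_eq_zero K 3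
  linear_combination (-1 * r) + (1) * E (2 :: 4 :: 1 :: 2 :: T) * h3

private theorem r2414 {K : Type} [Field K] [CharP K 3] {E : W → K} (h : Ax E) (T : W) (hT : T.length = 2) :
    E (2 :: 4 :: 1 :: 4 :: T) = 0 := by
  have r := h.dd [2, 4] 1 4 T (by simp) (by simp [hT]) (by decide)
  simp only [List.cons_append, List.nil_append] at r
  have e1 : E (2 :: 4 :: 4 :: 1 :: T) = 0 := by
    simp only [p244 h (1 :: T) (by simp [hT])]
  rw [e1] at r
  have h3 : (3 : K) = 0 := by exact_mod_cast CharP.cast_eq_zero K 3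
  linear_combination 1 * r

private theorem r1322 {K : Type} [Field K] [CharP K 3] {E : W → K} (h : Ax E) (T : W) (hT : T.length = 2) :
    E (1 :: 3 :: 2 :: 2 :: T) = 0 := by
  have r := h.dd [1, 2] 2 3 T (by simp) (by simp [hT]) (by decide)
  simp only [List.cons_append, List.nil_append] at r
  have e1 : E (1 :: 2 :: 2 :: 3 :: T) = 0 := by
    simp only [p122 h (3 :: T) (by simp [hT])]
  have e2 : E (1 :: 2 :: 3 :: 2 :: T) = E (1 :: 3 :: 2 :: 2 :: T) := by
    simp only [r123 h (2 :: T) (by simp [hT])]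
  rw [e1, e2] at r
  have h3 : (3 : K) = 0 := by exact_mod_cast CharP.cast_eq_zero K 3
  linear_combination (-1 * r)

private theorem r1323 {K : Type} [Field K] [CharP K 3] {E : W → K} (h : Ax E) (T : W) (hT : T.length = 2) :
    E (1 :: 3 :: 2 :: 3 :: T) = E (1 :: 3 :: 3 :: 2 :: T) := by
  have r := h.dd [1, 3] 2 3 T (by simp) (by simp [hT]) (by decide)
  simp only [List.cons_append, List.nil_append] at r
  have h3 : (3 : K) = 0 := by exact_mod_cast CharP.cast_eq_zero K 3
  linear_combination 1 * r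

private theorem r1212 {K : Type} [Field K] [CharP K 3] {E : W → K} (h : Ax E) (T : W) (hT : T.length = 2) :
    E (1 :: 2 :: 1 :: 2 :: T) = 0 := by
  have r := h.sq 1 2 T hT
  have e1 : E (1 :: 2 :: 2 :: 1 :: T) = 0 := by
    simp only [p122 h (1 :: T) (by simp [hT])]
  rw [e1] at r
  have h3 : (3 : K) = 0 := by exact_mod_cast CharP.cast_eq_zero K 3
  linear_combination 1 * r

private theorem r1213 {K : Type} [Field K] [CharP K 3] {E : W → K} (h : Ax E) (T : W) (hT : T.length = 2) :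
    E (1 :: 2 :: 1 :: 3 :: T) = -E (1 :: 3 :: 2 :: 1 :: T) := by
  have r := h.tt [2] 1 3 1 T (by simp) (by simp [hT]) (by decide)
  simp only [List.cons_append, List.nil_append] at r
  have e1 : E (2 :: 1 :: 3 :: 1 :: T) = -E (1 :: 3 :: 2 :: 1 :: T) := by
    simp only [r21 h (3 :: 1 :: T) (by simp [hT]), r123 h (1 :: T) (by simp [hT]), neg_neg, neg_zero]
  have e2 : E (2 :: 3 :: 1 :: 1 :: T) = 0 := by
    simp only [p23 h (1 :: 1 :: T) (by simp [hT])]
  have e3 : E (2 :: 1 :: 1 :: 3 :: T) = -E (1 :: 2 :: 1 :: 3 :: T) := by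
    simp only [r21 h (1 :: 3 :: T) (by simp [hT])]
  rw [e1, e2, e3] at r
  have h3 : (3 : K) = 0 := by exact_mod_cast CharP.cast_eq_zero K 3
  linear_combination 1 * r + (1) * E (1 :: 3 :: 2 :: 1 :: T) * h3

private theorem r1214 {K : Type} [Field K] [CharP K 3] {E : W → K} (h : Ax E) (T : W) (hT : T.length = 2) :
    E (1 :: 2 :: 1 :: 4 :: T) = -E (2 :: 4 :: 1 :: 1 :: T) := by
  have r := h.dd [1, 2] 1 4 T (by simp) (by simp [hT]) (by decide)
  simp only [List.cons_append, List.nil_append] at r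
  have e1 : E (1 :: 2 :: 4 :: 1 :: T) = -E (2 :: 4 :: 1 :: 1 :: T) := by
    simp only [r124 h (1 :: T) (by simp [hT])]
  rw [e1] at r
  have h3 : (3 : K) = 0 := by exact_mod_cast CharP.cast_eq_zero K 3
  linear_combination 1 * r

private theorem p34422 {K : Type} [Field K] {E : W → K} (h : Ax E) (T : W) (hT : T.length = 1) :
    E (3 :: 4 :: 4 :: 2 :: 2 :: T) = 0 := by
  exact h.pre [3, 4, 4, 2, 2] T (by simp) (by simp [hT]) (by decide)

private theorem p34224 {K : Type} [Field K] {E : W → K} (h : Ax E) (T : W) (hT : T.length = 1) :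
    E (3 :: 4 :: 2 :: 2 :: 4 :: T) = 0 := by
  exact h.pre [3, 4, 2, 2, 4] T (by simp) (by simp [hT]) (by decide)

private theorem p34413 {K : Type} [Field K] {E : W → K} (h : Ax E) (T : W) (hT : T.length = 1) :
    E (3 :: 4 :: 4 :: 1 :: 3 :: T) = 0 := by
  exact h.pre [3, 4, 4, 1, 3] T (by simp) (by simp [hT]) (by decide)

private theorem p34134 {K : Type} [Field K] {E : W → K} (h : Ax E) (T : W) (hT : T.length = 1) :
    E (3 :: 4 :: 1 :: 3 :: 4 :: T) = 0 := by
  exact h.pre [3, 4, 1, 3, 4] T (by simp) (by simp [hT]) (by decide)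

private theorem p13321 {K : Type} [Field K] {E : W → K} (h : Ax E) (T : W) (hT : T.length = 1) :
    E (1 :: 3 :: 3 :: 2 :: 1 :: T) = 0 := by
  exact h.pre [1, 3, 3, 2, 1] T (by simp) (by simp [hT]) (by decide)

private theorem p24211 {K : Type} [Field K] {E : W → K} (h : Ax E) (T : W) (hT : T.length = 1) :
    E (2 :: 4 :: 2 :: 1 :: 1 :: T) = 0 := by
  exact h.pre [2, 4, 2, 1, 1] T (by simp) (by simp [hT]) (by decide)

private theorem p24112 {K : Type} [Field K] {E : W → K} (h : Ax E) (T : W) (hT : T.length = 1) :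
    E (2 :: 4 :: 1 :: 1 :: 2 :: T) = 0 := by
  exact h.pre [2, 4, 1, 1, 2] T (by simp) (by simp [hT]) (by decide)

private theorem p13213 {K : Type} [Field K] {E : W → K} (h : Ax E) (T : W) (hT : T.length = 1) :
    E (1 :: 3 :: 2 :: 1 :: 3 :: T) = 0 := by
  exact h.pre [1, 3, 2, 1, 3] T (by simp) (by simp [hT]) (by decide)

private theorem r34421 {K : Type} [Field K] [CharP K 3] {E : W → K} (h : Ax E) (T : W) (hT : T.length = 1) :
    E (3 :: 4 :: 4 :: 2 :: 1 :: T) = 0 := by
  have r := h.dd [2, 4, 3] 1 4 T (by simp) (by simp [hT]) (by decide)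
  simp only [List.cons_append, List.nil_append] at r
  have e1 : E (2 :: 4 :: 3 :: 1 :: 4 :: T) = 0 := by
    simp only [r243 h (1 :: 4 :: T) (by simp [hT]), p3421 h (4 :: T) (by simp [hT]), neg_neg, neg_zero]
  have e2 : E (2 :: 4 :: 3 :: 4 :: 1 :: T) = -E (3 :: 4 :: 4 :: 2 :: 1 :: T) := by
    simp only [r243 h (4 :: 1 :: T) (by simp [hT]), r3424 h (1 :: T) (by simp [hT]), neg_neg, neg_zero]
  rw [e1, e2] at r
  have h3 : (3 : K) = 0 := by exact_mod_cast CharP.cast_eq_zero K 3
  linear_combination 1 * r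

private theorem r34423 {K : Type} [Field K] [CharP K 3] {E : W → K} (h : Ax E) (T : W) (hT : T.length = 1) :
    E (3 :: 4 :: 4 :: 2 :: 3 :: T) = 0 := by
  have r := h.dd [3, 4, 4] 2 3 T (by simp) (by simp [hT]) (by decide)
  simp only [List.cons_append, List.nil_append] at r
  have e1 : E (3 :: 4 :: 4 :: 3 :: 2 :: T) = 0 := by
    simp only [r3443 h (2 :: T) (by simp [hT])]
  rw [e1] at r
  have h3 : (3 : K) = 0 := by exact_mod_cast CharP.cast_eq_zero K 3
  linear_combination 1 * r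

private theorem r34221 {K : Type} [Field K] [CharP K 3] {E : W → K} (h : Ax E) (T : W) (hT : T.length = 1) :
    E (3 :: 4 :: 2 :: 2 :: 1 :: T) = 0 := by
  have r := h.tt [3, 4] 1 2 2 T (by simp) (by simp [hT]) (by decide)
  simp only [List.cons_append, List.nil_append] at r
  have e1 : E (3 :: 4 :: 1 :: 2 :: 2 :: T) = 0 := by
    simp only [p3412 h (2 :: T) (by simp [hT])]
  have e2 : E (3 :: 4 :: 2 :: 1 :: 2 :: T) = 0 := by
    simp only [p3421 h (2 :: T) (by simp [hT])]
  rw [e1, e2] at r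
  have h3 : (3 : K) = 0 := by exact_mod_cast CharP.cast_eq_zero K 3
  linear_combination 1 * r

private theorem r34222 {K : Type} [Field K] [CharP K 3] {E : W → K} (h : Ax E) (T : W) (hT : T.length = 1) :
    E (3 :: 4 :: 2 :: 2 :: 2 :: T) = 0 := by
  have r := h.dd [2, 4, 2] 2 3 T (by simp) (by simp [hT]) (by decide)
  simp only [List.cons_append, List.nil_append] at r
  have e1 : E (2 :: 4 :: 2 :: 2 :: 3 :: T) = 0 := by
    simp only [p2422 h (3 :: T) (by simp [hT])]
  have e2 : E (2 :: 4 :: 2 :: 3 :: 2 :: T) = E (3 :: 4 :: 2 :: 2 :: 2 :: T) := by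
    simp only [r2423 h (2 :: T) (by simp [hT])]
  rw [e1, e2] at r
  have h3 : (3 : K) = 0 := by exact_mod_cast CharP.cast_eq_zero K 3
  linear_combination (-1 * r)

private theorem r34223 {K : Type} [Field K] [CharP K 3] {E : W → K} (h : Ax E) (T : W) (hT : T.length = 1) :
    E (3 :: 4 :: 2 :: 2 :: 3 :: T) = 0 := by
  have r := h.dd [2, 4, 3] 2 3 T (by simp) (by simp [hT]) (by decide)
  simp only [List.cons_append, List.nil_append] at r
  have e1 : E (2 :: 4 :: 3 :: 2 :: 3 :: T) = E (3 :: 4 :: 2 :: 2 :: 3 :: T) := by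
    simp only [r243 h (2 :: 3 :: T) (by simp [hT])]
  have e2 : E (2 :: 4 :: 3 :: 3 :: 2 :: T) = 0 := by
    simp only [r243 h (3 :: 2 :: T) (by simp [hT]), r3423 h (2 :: T) (by simp [hT]), neg_neg, neg_zero]
  rw [e1, e2] at r
  have h3 : (3 : K) = 0 := by exact_mod_cast CharP.cast_eq_zero K 3
  linear_combination 1 * r

private theorem r34411 {K : Type} [Field K] [CharP K 3] {E : W → K} (h : Ax E) (T : W) (hT : T.length = 1) :
    E (3 :: 4 :: 4 :: 1 :: 1 :: T) = 0 := by
  have r := h.dd [1, 3, 4] 1 4 T (by simp) (by simp [hT]) (by decide)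
  simp only [List.cons_append, List.nil_append] at r
  have e1 : E (1 :: 3 :: 4 :: 1 :: 4 :: T) = 0 := by
    simp only [r134 h (1 :: 4 :: T) (by simp [hT]), r3411 h (4 :: T) (by simp [hT]), neg_neg, neg_zero]
  have e2 : E (1 :: 3 :: 4 :: 4 :: 1 :: T) = -E (3 :: 4 :: 4 :: 1 :: 1 :: T) := by
    simp only [r134 h (4 :: 1 :: T) (by simp [hT]), r3414 h (1 :: T) (by simp [hT]), neg_neg, neg_zero]
  rw [e1, e2] at r
  have h3 : (3 : K) = 0 := by exact_mod_cast CharP.cast_eq_zero K 3
  linear_combination 1 * r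

private theorem r34412 {K : Type} [Field K] [CharP K 3] {E : W → K} (h : Ax E) (T : W) (hT : T.length = 1) :
    E (3 :: 4 :: 4 :: 1 :: 2 :: T) = 0 := by
  have r := h.tt [1, 3] 2 4 4 T (by simp) (by simp [hT]) (by decide)
  simp only [List.cons_append, List.nil_append] at r
  have e1 : E (1 :: 3 :: 2 :: 4 :: 4 :: T) = 0 := by
    simp only [p1324 h (4 :: T) (by simp [hT])]
  have e2 : E (1 :: 3 :: 4 :: 2 :: 4 :: T) = 0 := by
    simp only [r134 h (2 :: 4 :: T) (by simp [hT]), p3412 h (4 :: T) (by simp [hT]), neg_neg, neg_zero]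
  have e3 : E (1 :: 3 :: 4 :: 4 :: 2 :: T) = -E (3 :: 4 :: 4 :: 1 :: 2 :: T) := by
    simp only [r134 h (4 :: 2 :: T) (by simp [hT]), r3414 h (2 :: T) (by simp [hT]), neg_neg, neg_zero]
  rw [e1, e2, e3] at r
  have h3 : (3 : K) = 0 := by exact_mod_cast CharP.cast_eq_zero K 3
  linear_combination (-1 * r)

private theorem r34414 {K : Type} [Field K] [CharP K 3] {E : W → K} (h : Ax E) (T : W) (hT : T.length = 1) :
    E (3 :: 4 :: 4 :: 1 :: 4 :: T) = 0 := by
  have r := h.dd [3, 4, 4] 1 4 T (by simp) (by simp [hT]) (by decide)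
  simp only [List.cons_append, List.nil_append] at r
  have e1 : E (3 :: 4 :: 4 :: 4 :: 1 :: T) = 0 := by
    simp only [p3444 h (1 :: T) (by simp [hT])]
  rw [e1] at r
  have h3 : (3 : K) = 0 := by exact_mod_cast CharP.cast_eq_zero K 3
  linear_combination 1 * r

private theorem r34131 {K : Type} [Field K] [CharP K 3] {E : W → K} (h : Ax E) (T : W) (hT : T.length = 1) :
    E (3 :: 4 :: 1 :: 3 :: 1 :: T) = 0 := by
  have r := h.dd [1, 3, 3] 1 4 T (by simp) (by simp [hT]) (by decide)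
  simp only [List.cons_append, List.nil_append] at r
  have e1 : E (1 :: 3 :: 3 :: 1 :: 4 :: T) = 0 := by
    simp only [r1331 h (4 :: T) (by simp [hT])]
  have e2 : E (1 :: 3 :: 3 :: 4 :: 1 :: T) = E (3 :: 4 :: 1 :: 3 :: 1 :: T) := by
    simp only [r1334 h (1 :: T) (by simp [hT])]
  rw [e1, e2] at r
  have h3 : (3 : K) = 0 := by exact_mod_cast CharP.cast_eq_zero K 3
  linear_combination (-1 * r)

private theorem r34132 {K : Type} [Field K] [CharP K 3] {E : W → K} (h : Ax E) (T : W) (hT : T.length = 1) :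
    E (3 :: 4 :: 1 :: 3 :: 2 :: T) = 0 := by
  have r := h.dd [1, 3, 4] 2 3 T (by simp) (by simp [hT]) (by decide)
  simp only [List.cons_append, List.nil_append] at r
  have e1 : E (1 :: 3 :: 4 :: 2 :: 3 :: T) = 0 := by
    simp only [r134 h (2 :: 3 :: T) (by simp [hT]), p3412 h (3 :: T) (by simp [hT]), neg_neg, neg_zero]
  have e2 : E (1 :: 3 :: 4 :: 3 :: 2 :: T) = -E (3 :: 4 :: 1 :: 3 :: 2 :: T) := by
    simp only [r134 h (3 :: 2 :: T) (by simp [hT])]
  rw [e1, e2] at r
  have h3 : (3 : K) = 0 := by exact_mod_cast CharP.cast_eq_zero K 3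
  linear_combination 1 * r

private theorem r13322 {K : Type} [Field K] [CharP K 3] {E : W → K} (h : Ax E) (T : W) (hT : T.length = 1) :
    E (1 :: 3 :: 3 :: 2 :: 2 :: T) = 0 := by
  have r := h.dd [1, 2, 3] 2 3 T (by simp) (by simp [hT]) (by decide)
  simp only [List.cons_append, List.nil_append] at r
  have e1 : E (1 :: 2 :: 3 :: 2 :: 3 :: T) = 0 := by
    simp only [r123 h (2 :: 3 :: T) (by simp [hT]), r1322 h (3 :: T) (by simp [hT]), neg_neg, neg_zero]
  have e2 : E (1 :: 2 :: 3 :: 3 :: 2 :: T) = E (1 :: 3 :: 3 :: 2 :: 2 :: T) := by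
    simp only [r123 h (3 :: 2 :: T) (by simp [hT]), r1323 h (2 :: T) (by simp [hT]), neg_neg, neg_zero]
  rw [e1, e2] at r
  have h3 : (3 : K) = 0 := by exact_mod_cast CharP.cast_eq_zero K 3
  linear_combination (-1 * r)

private theorem r13323 {K : Type} [Field K] [CharP K 3] {E : W → K} (h : Ax E) (T : W) (hT : T.length = 1) :
    E (1 :: 3 :: 3 :: 2 :: 3 :: T) = 0 := by
  have r := h.dd [1, 3, 3] 2 3 T (by simp) (by simp [hT]) (by decide)
  simp only [List.cons_append, List.nil_append] at r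
  have e1 : E (1 :: 3 :: 3 :: 3 :: 2 :: T) = 0 := by
    simp only [p1333 h (2 :: T) (by simp [hT])]
  rw [e1] at r
  have h3 : (3 : K) = 0 := by exact_mod_cast CharP.cast_eq_zero K 3
  linear_combination 1 * r

private theorem r13324 {K : Type} [Field K] [CharP K 3] {E : W → K} (h : Ax E) (T : W) (hT : T.length = 1) :
    E (1 :: 3 :: 3 :: 2 :: 4 :: T) = 0 := by
  have r := h.tt [1, 2] 3 4 3 T (by simp) (by simp [hT]) (by decide)
  simp only [List.cons_append, List.nil_append] at r
  have e1 : E (1 :: 2 :: 3 :: 4 :: 3 :: T) = 0 := by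
    simp only [r123 h (4 :: 3 :: T) (by simp [hT]), p1324 h (3 :: T) (by simp [hT]), neg_neg, neg_zero]
  have e2 : E (1 :: 2 :: 4 :: 3 :: 3 :: T) = 0 := by
    simp only [r124 h (3 :: 3 :: T) (by simp [hT]), p2413 h (3 :: T) (by simp [hT]), neg_neg, neg_zero]
  have e3 : E (1 :: 2 :: 3 :: 3 :: 4 :: T) = E (1 :: 3 :: 3 :: 2 :: 4 :: T) := by
    simp only [r123 h (3 :: 4 :: T) (by simp [hT]), r1323 h (4 :: T) (by simp [hT]), neg_neg, neg_zero]
  rw [e1, e2, e3] at r
  have h3 : (3 : K) = 0 := by exact_mod_cast CharP.cast_eq_zero K 3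
  linear_combination (-1 * r)

private theorem r24213 {K : Type} [Field K] [CharP K 3] {E : W → K} (h : Ax E) (T : W) (hT : T.length = 1) :
    E (2 :: 4 :: 2 :: 1 :: 3 :: T) = 0 := by
  have r := h.dd [1, 2, 4] 2 3 T (by simp) (by simp [hT]) (by decide)
  simp only [List.cons_append, List.nil_append] at r
  have e1 : E (1 :: 2 :: 4 :: 2 :: 3 :: T) = E (2 :: 4 :: 2 :: 1 :: 3 :: T) := by
    simp only [r124 h (2 :: 3 :: T) (by simp [hT]), r2412 h (3 :: T) (by simp [hT]), neg_neg, neg_zero]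
  have e2 : E (1 :: 2 :: 4 :: 3 :: 2 :: T) = 0 := by
    simp only [r124 h (3 :: 2 :: T) (by simp [hT]), p2413 h (2 :: T) (by simp [hT]), neg_neg, neg_zero]
  rw [e1, e2] at r
  have h3 : (3 : K) = 0 := by exact_mod_cast CharP.cast_eq_zero K 3
  linear_combination 1 * r

private theorem r24214 {K : Type} [Field K] [CharP K 3] {E : W → K} (h : Ax E) (T : W) (hT : T.length = 1) :
    E (2 :: 4 :: 2 :: 1 :: 4 :: T) = 0 := by
  have r := h.dd [2, 4, 2] 1 4 T (by simp) (by simp [hT]) (by decide)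
  simp only [List.cons_append, List.nil_append] at r
  have e1 : E (2 :: 4 :: 2 :: 4 :: 1 :: T) = 0 := by
    simp only [r2424 h (1 :: T) (by simp [hT])]
  rw [e1] at r
  have h3 : (3 : K) = 0 := by exact_mod_cast CharP.cast_eq_zero K 3
  linear_combination 1 * r

private theorem r24111 {K : Type} [Field K] [CharP K 3] {E : W → K} (h : Ax E) (T : W) (hT : T.length = 1) :
    E (2 :: 4 :: 1 :: 1 :: 1 :: T) = 0 := by
  have r := h.dd [1, 2, 1] 1 4 T (by simp) (by simp [hT]) (by decide)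
  simp only [List.cons_append, List.nil_append] at r
  have e1 : E (1 :: 2 :: 1 :: 1 :: 4 :: T) = 0 := by
    simp only [p1211 h (4 :: T) (by simp [hT])]
  have e2 : E (1 :: 2 :: 1 :: 4 :: 1 :: T) = -E (2 :: 4 :: 1 :: 1 :: 1 :: T) := by
    simp only [r1214 h (1 :: T) (by simp [hT])]
  rw [e1, e2] at r
  have h3 : (3 : K) = 0 := by exact_mod_cast CharP.cast_eq_zero K 3
  linear_combination 1 * r

private theorem r24113 {K : Type} [Field K] [CharP K 3] {E : W → K} (h : Ax E) (T : W) (hT : T.length = 1) :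
    E (2 :: 4 :: 1 :: 1 :: 3 :: T) = 0 := by
  have r := h.tt [2, 4] 1 3 1 T (by simp) (by simp [hT]) (by decide)
  simp only [List.cons_append, List.nil_append] at r
  have e1 : E (2 :: 4 :: 1 :: 3 :: 1 :: T) = 0 := by
    simp only [p2413 h (1 :: T) (by simp [hT])]
  have e2 : E (2 :: 4 :: 3 :: 1 :: 1 :: T) = 0 := by
    simp only [r243 h (1 :: 1 :: T) (by simp [hT]), p3421 h (1 :: T) (by simp [hT]), neg_neg, neg_zero]
  rw [e1, e2] at r
  have h3 : (3 : K) = 0 := by exact_mod_cast CharP.cast_eq_zero K 3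
  linear_combination (-1 * r)

private theorem r24114 {K : Type} [Field K] [CharP K 3] {E : W → K} (h : Ax E) (T : W) (hT : T.length = 1) :
    E (2 :: 4 :: 1 :: 1 :: 4 :: T) = 0 := by
  have r := h.dd [1, 2, 4] 1 4 T (by simp) (by simp [hT]) (by decide)
  simp only [List.cons_append, List.nil_append] at r
  have e1 : E (1 :: 2 :: 4 :: 1 :: 4 :: T) = -E (2 :: 4 :: 1 :: 1 :: 4 :: T) := by
    simp only [r124 h (1 :: 4 :: T) (by simp [hT])]
  have e2 : E (1 :: 2 :: 4 :: 4 :: 1 :: T) = 0 := by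
    simp only [r124 h (4 :: 1 :: T) (by simp [hT]), r2414 h (1 :: T) (by simp [hT]), neg_neg, neg_zero]
  rw [e1, e2] at r
  have h3 : (3 : K) = 0 := by exact_mod_cast CharP.cast_eq_zero K 3
  linear_combination (-1 * r)

private theorem r13212 {K : Type} [Field K] [CharP K 3] {E : W → K} (h : Ax E) (T : W) (hT : T.length = 1) :
    E (1 :: 3 :: 2 :: 1 :: 2 :: T) = 0 := by
  have r := h.dd [1, 2, 1] 2 3 T (by simp) (by simp [hT]) (by decide)
  simp only [List.cons_append, List.nil_append] at r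
  have e1 : E (1 :: 2 :: 1 :: 2 :: 3 :: T) = 0 := by
    simp only [r1212 h (3 :: T) (by simp [hT])]
  have e2 : E (1 :: 2 :: 1 :: 3 :: 2 :: T) = -E (1 :: 3 :: 2 :: 1 :: 2 :: T) := by
    simp only [r1213 h (2 :: T) (by simp [hT])]
  rw [e1, e2] at r
  have h3 : (3 : K) = 0 := by exact_mod_cast CharP.cast_eq_zero K 3
  linear_combination 1 * r

private theorem r13214 {K : Type} [Field K] [CharP K 3] {E : W → K} (h : Ax E) (T : W) (hT : T.length = 1) :
    E (1 :: 3 :: 2 :: 1 :: 4 :: T) = 0 := by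
  have r := h.dd [1, 2, 3] 1 4 T (by simp) (by simp [hT]) (by decide)
  simp only [List.cons_append, List.nil_append] at r
  have e1 : E (1 :: 2 :: 3 :: 1 :: 4 :: T) = E (1 :: 3 :: 2 :: 1 :: 4 :: T) := by
    simp only [r123 h (1 :: 4 :: T) (by simp [hT])]
  have e2 : E (1 :: 2 :: 3 :: 4 :: 1 :: T) = 0 := by
    simp only [r123 h (4 :: 1 :: T) (by simp [hT]), p1324 h (1 :: T) (by simp [hT]), neg_neg, neg_zero]
  rw [e1, e2] at r
  have h3 : (3 : K) = 0 := by exact_mod_cast CharP.cast_eq_zero K 3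
  linear_combination 1 * r

private theorem p344243 {K : Type} [Field K] {E : W → K} (h : Ax E) (T : W) (hT : T.length = 0) :
    E (3 :: 4 :: 4 :: 2 :: 4 :: 3 :: T) = 0 := by
  exact h.pre [3, 4, 4, 2, 4, 3] T (by simp) (by simp [hT]) (by decide)

private theorem p341331 {K : Type} [Field K] {E : W → K} (h : Ax E) (T : W) (hT : T.length = 0) :
    E (3 :: 4 :: 1 :: 3 :: 3 :: 1 :: T) = 0 := by
  exact h.pre [3, 4, 1, 3, 3, 1] T (by simp) (by simp [hT]) (by decide)

private theorem p242124 {K : Type} [Field K] {E : W → K} (h : Ax E) (T : W) (hT : T.length = 0) :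
    E (2 :: 4 :: 2 :: 1 :: 2 :: 4 :: T) = 0 := by
  exact h.pre [2, 4, 2, 1, 2, 4] T (by simp) (by simp [hT]) (by decide)

private theorem p132112 {K : Type} [Field K] {E : W → K} (h : Ax E) (T : W) (hT : T.length = 0) :
    E (1 :: 3 :: 2 :: 1 :: 1 :: 2 :: T) = 0 := by
  exact h.pre [1, 3, 2, 1, 1, 2] T (by simp) (by simp [hT]) (by decide)

private theorem r344241 {K : Type} [Field K] [CharP K 3] {E : W → K} (h : Ax E) (T : W) (hT : T.length = 0) :
    E (3 :: 4 :: 4 :: 2 :: 4 :: 1 :: T) = 0 := by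
  have r := h.dd [2, 4, 3, 4] 1 4 T (by simp) (by simp [hT]) (by decide)
  simp only [List.cons_append, List.nil_append] at r
  have e1 : E (2 :: 4 :: 3 :: 4 :: 1 :: 4 :: T) = 0 := by
    simp only [r243 h (4 :: 1 :: 4 :: T) (by simp [hT]), r3424 h (1 :: 4 :: T) (by simp [hT]), r34421 h (4 :: T) (by simp [hT]), neg_neg, neg_zero]
  have e2 : E (2 :: 4 :: 3 :: 4 :: 4 :: 1 :: T) = -E (3 :: 4 :: 4 :: 2 :: 4 :: 1 :: T) := by
    simp only [r243 h (4 :: 4 :: 1 :: T) (by simp [hT]), r3424 h (4 :: 1 :: T) (by simp [hT]), neg_neg, neg_zero]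
  rw [e1, e2] at r
  have h3 : (3 : K) = 0 := by exact_mod_cast CharP.cast_eq_zero K 3
  linear_combination 1 * r

private theorem r344242 {K : Type} [Field K] [CharP K 3] {E : W → K} (h : Ax E) (T : W) (hT : T.length = 0) :
    E (3 :: 4 :: 4 :: 2 :: 4 :: 2 :: T) = 0 := by
  have r := h.tt [2, 4, 3] 2 4 4 T (by simp) (by simp [hT]) (by decide)
  simp only [List.cons_append, List.nil_append] at r
  have e1 : E (2 :: 4 :: 3 :: 2 :: 4 :: 4 :: T) = 0 := by
    simp only [r243 h (2 :: 4 :: 4 :: T) (by simp [hT]), p34224 h (4 :: T) (by simp [hT]), neg_neg, neg_zero]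
  have e2 : E (2 :: 4 :: 3 :: 4 :: 2 :: 4 :: T) = 0 := by
    simp only [r243 h (4 :: 2 :: 4 :: T) (by simp [hT]), r3424 h (2 :: 4 :: T) (by simp [hT]), p34422 h (4 :: T) (by simp [hT]), neg_neg, neg_zero]
  have e3 : E (2 :: 4 :: 3 :: 4 :: 4 :: 2 :: T) = -E (3 :: 4 :: 4 :: 2 :: 4 :: 2 :: T) := by
    simp only [r243 h (4 :: 4 :: 2 :: T) (by simp [hT]), r3424 h (4 :: 2 :: T) (by simp [hT]), neg_neg, neg_zero]
  rw [e1, e2, e3] at r
  have h3 : (3 : K) = 0 := by exact_mod_cast CharP.cast_eq_zero K 3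
  linear_combination (-1 * r)

private theorem r344244 {K : Type} [Field K] [CharP K 3] {E : W → K} (h : Ax E) (T : W) (hT : T.length = 0) :
    E (3 :: 4 :: 4 :: 2 :: 4 :: 4 :: T) = 0 := by
  have r := h.tt [3, 4, 4] 2 4 4 T (by simp) (by simp [hT]) (by decide)
  simp only [List.cons_append, List.nil_append] at r
  have e1 : E (3 :: 4 :: 4 :: 4 :: 2 :: 4 :: T) = 0 := by
    simp only [p3444 h (2 :: 4 :: T) (by simp [hT])]
  have e2 : E (3 :: 4 :: 4 :: 4 :: 4 :: 2 :: T) = 0 := by
    simp only [p3444 h (4 :: 2 :: T) (by simp [hT])]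
  rw [e1, e2] at r
  have h3 : (3 : K) = 0 := by exact_mod_cast CharP.cast_eq_zero K 3
  linear_combination 1 * r

private theorem r341332 {K : Type} [Field K] [CharP K 3] {E : W → K} (h : Ax E) (T : W) (hT : T.length = 0) :
    E (3 :: 4 :: 1 :: 3 :: 3 :: 2 :: T) = 0 := by
  have r := h.dd [1, 3, 3, 4] 2 3 T (by simp) (by simp [hT]) (by decide)
  simp only [List.cons_append, List.nil_append] at r
  have e1 : E (1 :: 3 :: 3 :: 4 :: 2 :: 3 :: T) = 0 := by
    simp only [r1334 h (2 :: 3 :: T) (by simp [hT]), r34132 h (3 :: T) (by simp [hT]), neg_neg, neg_zero]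
  have e2 : E (1 :: 3 :: 3 :: 4 :: 3 :: 2 :: T) = E (3 :: 4 :: 1 :: 3 :: 3 :: 2 :: T) := by
    simp only [r1334 h (3 :: 2 :: T) (by simp [hT])]
  rw [e1, e2] at r
  have h3 : (3 : K) = 0 := by exact_mod_cast CharP.cast_eq_zero K 3
  linear_combination (-1 * r)

private theorem r341333 {K : Type} [Field K] [CharP K 3] {E : W → K} (h : Ax E) (T : W) (hT : T.length = 0) :
    E (3 :: 4 :: 1 :: 3 :: 3 :: 3 :: T) = 0 := by
  have r := h.tt [1, 3, 3] 3 4 3 T (by simp) (by simp [hT]) (by decide)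
  simp only [List.cons_append, List.nil_append] at r
  have e1 : E (1 :: 3 :: 3 :: 3 :: 4 :: 3 :: T) = 0 := by
    simp only [p1333 h (4 :: 3 :: T) (by simp [hT])]
  have e2 : E (1 :: 3 :: 3 :: 4 :: 3 :: 3 :: T) = E (3 :: 4 :: 1 :: 3 :: 3 :: 3 :: T) := by
    simp only [r1334 h (3 :: 3 :: T) (by simp [hT])]
  have e3 : E (1 :: 3 :: 3 :: 3 :: 3 :: 4 :: T) = 0 := by
    simp only [p1333 h (3 :: 4 :: T) (by simp [hT])]
  rw [e1, e2, e3] at r
  have h3 : (3 : K) = 0 := by exact_mod_cast CharP.cast_eq_zero K 3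
  linear_combination (-1 * r)

private theorem r341334 {K : Type} [Field K] [CharP K 3] {E : W → K} (h : Ax E) (T : W) (hT : T.length = 0) :
    E (3 :: 4 :: 1 :: 3 :: 3 :: 4 :: T) = 0 := by
  have r := h.tt [1, 3, 4] 3 4 3 T (by simp) (by simp [hT]) (by decide)
  simp only [List.cons_append, List.nil_append] at r
  have e1 : E (1 :: 3 :: 4 :: 3 :: 4 :: 3 :: T) = 0 := by
    simp only [r134 h (3 :: 4 :: 3 :: T) (by simp [hT]), p34134 h (3 :: T) (by simp [hT]), neg_neg, neg_zero]
  have e2 : E (1 :: 3 :: 4 :: 4 :: 3 :: 3 :: T) = 0 := by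
    simp only [r134 h (4 :: 3 :: 3 :: T) (by simp [hT]), r3414 h (3 :: 3 :: T) (by simp [hT]), p34413 h (3 :: T) (by simp [hT]), neg_neg, neg_zero]
  have e3 : E (1 :: 3 :: 4 :: 3 :: 3 :: 4 :: T) = -E (3 :: 4 :: 1 :: 3 :: 3 :: 4 :: T) := by
    simp only [r134 h (3 :: 3 :: 4 :: T) (by simp [hT])]
  rw [e1, e2, e3] at r
  have h3 : (3 : K) = 0 := by exact_mod_cast CharP.cast_eq_zero K 3
  linear_combination 1 * r

private theorem r242121 {K : Type} [Field K] [CharP K 3] {E : W → K} (h : Ax E) (T : W) (hT : T.length = 0) :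
    E (2 :: 4 :: 2 :: 1 :: 2 :: 1 :: T) = 0 := by
  have r := h.tt [1, 2, 4] 1 2 2 T (by simp) (by simp [hT]) (by decide)
  simp only [List.cons_append, List.nil_append] at r
  have e1 : E (1 :: 2 :: 4 :: 1 :: 2 :: 2 :: T) = 0 := by
    simp only [r124 h (1 :: 2 :: 2 :: T) (by simp [hT]), p24112 h (2 :: T) (by simp [hT]), neg_neg, neg_zero]
  have e2 : E (1 :: 2 :: 4 :: 2 :: 1 :: 2 :: T) = 0 := by
    simp only [r124 h (2 :: 1 :: 2 :: T) (by simp [hT]), r2412 h (1 :: 2 :: T) (by simp [hT]), p24211 h (2 :: T) (by simp [hT]), neg_neg, neg_zero]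
  have e3 : E (1 :: 2 :: 4 :: 2 :: 2 :: 1 :: T) = E (2 :: 4 :: 2 :: 1 :: 2 :: 1 :: T) := by
    simp only [r124 h (2 :: 2 :: 1 :: T) (by simp [hT]), r2412 h (2 :: 1 :: T) (by simp [hT]), neg_neg, neg_zero]
  rw [e1, e2, e3] at r
  have h3 : (3 : K) = 0 := by exact_mod_cast CharP.cast_eq_zero K 3
  linear_combination 1 * r

private theorem r242122 {K : Type} [Field K] [CharP K 3] {E : W → K} (h : Ax E) (T : W) (hT : T.length = 0) :
    E (2 :: 4 :: 2 :: 1 :: 2 :: 2 :: T) = 0 := by
  have r := h.tt [2, 4, 2] 1 2 2 T (by simp) (by simp [hT]) (by decide)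
  simp only [List.cons_append, List.nil_append] at r
  have e1 : E (2 :: 4 :: 2 :: 2 :: 1 :: 2 :: T) = 0 := by
    simp only [p2422 h (1 :: 2 :: T) (by simp [hT])]
  have e2 : E (2 :: 4 :: 2 :: 2 :: 2 :: 1 :: T) = 0 := by
    simp only [p2422 h (2 :: 1 :: T) (by simp [hT])]
  rw [e1, e2] at r
  have h3 : (3 : K) = 0 := by exact_mod_cast CharP.cast_eq_zero K 3
  linear_combination 1 * r

private theorem r242123 {K : Type} [Field K] [CharP K 3] {E : W → K} (h : Ax E) (T : W) (hT : T.length = 0) :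
    E (2 :: 4 :: 2 :: 1 :: 2 :: 3 :: T) = 0 := by
  have r := h.dd [1, 2, 4, 2] 2 3 T (by simp) (by simp [hT]) (by decide)
  simp only [List.cons_append, List.nil_append] at r
  have e1 : E (1 :: 2 :: 4 :: 2 :: 2 :: 3 :: T) = E (2 :: 4 :: 2 :: 1 :: 2 :: 3 :: T) := by
    simp only [r124 h (2 :: 2 :: 3 :: T) (by simp [hT]), r2412 h (2 :: 3 :: T) (by simp [hT]), neg_neg, neg_zero]
  have e2 : E (1 :: 2 :: 4 :: 2 :: 3 :: 2 :: T) = 0 := by
    simp only [r124 h (2 :: 3 :: 2 :: T) (by simp [hT]), r2412 h (3 :: 2 :: T) (by simp [hT]), r24213 h (2 :: T) (by simp [hT]), neg_neg, neg_zero]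
  rw [e1, e2] at r
  have h3 : (3 : K) = 0 := by exact_mod_cast CharP.cast_eq_zero K 3
  linear_combination 1 * r

private theorem r132111 {K : Type} [Field K] [CharP K 3] {E : W → K} (h : Ax E) (T : W) (hT : T.length = 0) :
    E (1 :: 3 :: 2 :: 1 :: 1 :: 1 :: T) = 0 := by
  have r := h.tt [1, 2, 1] 1 3 1 T (by simp) (by simp [hT]) (by decide)
  simp only [List.cons_append, List.nil_append] at r
  have e1 : E (1 :: 2 :: 1 :: 1 :: 3 :: 1 :: T) = 0 := by
    simp only [p1211 h (3 :: 1 :: T) (by simp [hT])]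
  have e2 : E (1 :: 2 :: 1 :: 3 :: 1 :: 1 :: T) = -E (1 :: 3 :: 2 :: 1 :: 1 :: 1 :: T) := by
    simp only [r1213 h (1 :: 1 :: T) (by simp [hT])]
  have e3 : E (1 :: 2 :: 1 :: 1 :: 1 :: 3 :: T) = 0 := by
    simp only [p1211 h (1 :: 3 :: T) (by simp [hT])]
  rw [e1, e2, e3] at r
  have h3 : (3 : K) = 0 := by exact_mod_cast CharP.cast_eq_zero K 3
  linear_combination 1 * r

private theorem r132113 {K : Type} [Field K] [CharP K 3] {E : W → K} (h : Ax E) (T : W) (hT : T.length = 0) :
    E (1 :: 3 :: 2 :: 1 :: 1 :: 3 :: T) = 0 := by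
  have r := h.tt [1, 2, 3] 1 3 1 T (by simp) (by simp [hT]) (by decide)
  simp only [List.cons_append, List.nil_append] at r
  have e1 : E (1 :: 2 :: 3 :: 1 :: 3 :: 1 :: T) = 0 := by
    simp only [r123 h (1 :: 3 :: 1 :: T) (by simp [hT]), p13213 h (1 :: T) (by simp [hT]), neg_neg, neg_zero]
  have e2 : E (1 :: 2 :: 3 :: 3 :: 1 :: 1 :: T) = 0 := by
    simp only [r123 h (3 :: 1 :: 1 :: T) (by simp [hT]), r1323 h (1 :: 1 :: T) (by simp [hT]), p13321 h (1 :: T) (by simp [hT]), neg_neg, neg_zero]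
  have e3 : E (1 :: 2 :: 3 :: 1 :: 1 :: 3 :: T) = E (1 :: 3 :: 2 :: 1 :: 1 :: 3 :: T) := by
    simp only [r123 h (1 :: 1 :: 3 :: T) (by simp [hT])]
  rw [e1, e2, e3] at r
  have h3 : (3 : K) = 0 := by exact_mod_cast CharP.cast_eq_zero K 3
  linear_combination (-1 * r)

private theorem r132114 {K : Type} [Field K] [CharP K 3] {E : W → K} (h : Ax E) (T : W) (hT : T.length = 0) :
    E (1 :: 3 :: 2 :: 1 :: 1 :: 4 :: T) = 0 := by
  have r := h.dd [1, 2, 1, 3] 1 4 T (by simp) (by simp [hT]) (by decide)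
  simp only [List.cons_append, List.nil_append] at r
  have e1 : E (1 :: 2 :: 1 :: 3 :: 1 :: 4 :: T) = -E (1 :: 3 :: 2 :: 1 :: 1 :: 4 :: T) := by
    simp only [r1213 h (1 :: 4 :: T) (by simp [hT])]
  have e2 : E (1 :: 2 :: 1 :: 3 :: 4 :: 1 :: T) = 0 := by
    simp only [r1213 h (4 :: 1 :: T) (by simp [hT]), r13214 h (1 :: T) (by simp [hT]), neg_neg, neg_zero]
  rw [e1, e2] at r
  have h3 : (3 : K) = 0 := by exact_mod_cast CharP.cast_eq_zero K 3
  linear_combination (-1 * r)

private theorem five : ∀ a : ZMod 5, a = 0 ∨ a = 1 ∨ a = 2 ∨ a = 3 ∨ a = 4 := by decide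

private theorem z34424 {K : Type} [Field K] [CharP K 3] {E : W → K} (h : Ax E) (T : W) (hT : T.length = 1) :
    E (3 :: 4 :: 4 :: 2 :: 4 :: T) = 0 := by
  obtain ⟨a, S, rfl⟩ : ∃ a S, T = a :: S := List.exists_cons_of_ne_nil (by rintro rfl; simp at hT)
  have hS : S.length = 0 := by simpa using hT
  rcases five a with rfl | rfl | rfl | rfl | rfl
  · exact h.nul [3, 4, 4, 2, 4] S (by simp [hS])
  · exact r344241 h S hS
  · exact r344242 h S hS
  · exact p344243 h S hS
  · exact r344244 h S hS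

private theorem z34133 {K : Type} [Field K] [CharP K 3] {E : W → K} (h : Ax E) (T : W) (hT : T.length = 1) :
    E (3 :: 4 :: 1 :: 3 :: 3 :: T) = 0 := by
  obtain ⟨a, S, rfl⟩ : ∃ a S, T = a :: S := List.exists_cons_of_ne_nil (by rintro rfl; simp at hT)
  have hS : S.length = 0 := by simpa using hT
  rcases five a with rfl | rfl | rfl | rfl | rfl
  · exact h.nul [3, 4, 1, 3, 3] S (by simp [hS])
  · exact p341331 h S hS
  · exact r341332 h S hS
  · exact r341333 h S hS
  · exact r341334 h S hS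

private theorem z24212 {K : Type} [Field K] [CharP K 3] {E : W → K} (h : Ax E) (T : W) (hT : T.length = 1) :
    E (2 :: 4 :: 2 :: 1 :: 2 :: T) = 0 := by
  obtain ⟨a, S, rfl⟩ : ∃ a S, T = a :: S := List.exists_cons_of_ne_nil (by rintro rfl; simp at hT)
  have hS : S.length = 0 := by simpa using hT
  rcases five a with rfl | rfl | rfl | rfl | rfl
  · exact h.nul [2, 4, 2, 1, 2] S (by simp [hS])
  · exact r242121 h S hS
  · exact r242122 h S hS
  · exact r242123 h S hS
  · exact p242124 h S hS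

private theorem z13211 {K : Type} [Field K] [CharP K 3] {E : W → K} (h : Ax E) (T : W) (hT : T.length = 1) :
    E (1 :: 3 :: 2 :: 1 :: 1 :: T) = 0 := by
  obtain ⟨a, S, rfl⟩ : ∃ a S, T = a :: S := List.exists_cons_of_ne_nil (by rintro rfl; simp at hT)
  have hS : S.length = 0 := by simpa using hT
  rcases five a with rfl | rfl | rfl | rfl | rfl
  · exact h.nul [1, 3, 2, 1, 1] S (by simp [hS])
  · exact r132111 h S hS
  · exact p132112 h S hS
  · exact r132113 h S hS
  · exact r132114 h S hS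

private theorem z3442 {K : Type} [Field K] [CharP K 3] {E : W → K} (h : Ax E) (T : W) (hT : T.length = 2) :
    E (3 :: 4 :: 4 :: 2 :: T) = 0 := by
  obtain ⟨a, S, rfl⟩ : ∃ a S, T = a :: S := List.exists_cons_of_ne_nil (by rintro rfl; simp at hT)
  have hS : S.length = 1 := by simpa using hT
  rcases five a with rfl | rfl | rfl | rfl | rfl
  · exact h.nul [3, 4, 4, 2] S (by simp [hS])
  · exact r34421 h S hS
  · exact p34422 h S hS
  · exact r34423 h S hS
  · exact z34424 h S hS

private theorem z3422 {K : Type} [Field K] [CharP K 3] {E : W → K} (h : Ax E) (T : W) (hT : T.length = 2) :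
    E (3 :: 4 :: 2 :: 2 :: T) = 0 := by
  obtain ⟨a, S, rfl⟩ : ∃ a S, T = a :: S := List.exists_cons_of_ne_nil (by rintro rfl; simp at hT)
  have hS : S.length = 1 := by simpa using hT
  rcases five a with rfl | rfl | rfl | rfl | rfl
  · exact h.nul [3, 4, 2, 2] S (by simp [hS])
  · exact r34221 h S hS
  · exact r34222 h S hS
  · exact r34223 h S hS
  · exact p34224 h S hS

private theorem z3441 {K : Type} [Field K] [CharP K 3] {E : W → K} (h : Ax E) (T : W) (hT : T.length = 2) :
    E (3 :: 4 :: 4 :: 1 :: T) = 0 := by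
  obtain ⟨a, S, rfl⟩ : ∃ a S, T = a :: S := List.exists_cons_of_ne_nil (by rintro rfl; simp at hT)
  have hS : S.length = 1 := by simpa using hT
  rcases five a with rfl | rfl | rfl | rfl | rfl
  · exact h.nul [3, 4, 4, 1] S (by simp [hS])
  · exact r34411 h S hS
  · exact r34412 h S hS
  · exact p34413 h S hS
  · exact r34414 h S hS

private theorem z3413 {K : Type} [Field K] [CharP K 3] {E : W → K} (h : Ax E) (T : W) (hT : T.length = 2) :
    E (3 :: 4 :: 1 :: 3 :: T) = 0 := by
  obtain ⟨a, S, rfl⟩ : ∃ a S, T = a :: S := List.exists_cons_of_ne_nil (by rintro rfl; simp at hT)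
  have hS : S.length = 1 := by simpa using hT
  rcases five a with rfl | rfl | rfl | rfl | rfl
  · exact h.nul [3, 4, 1, 3] S (by simp [hS])
  · exact r34131 h S hS
  · exact r34132 h S hS
  · exact z34133 h S hS
  · exact p34134 h S hS

private theorem z1332 {K : Type} [Field K] [CharP K 3] {E : W → K} (h : Ax E) (T : W) (hT : T.length = 2) :
    E (1 :: 3 :: 3 :: 2 :: T) = 0 := by
  obtain ⟨a, S, rfl⟩ : ∃ a S, T = a :: S := List.exists_cons_of_ne_nil (by rintro rfl; simp at hT)
  have hS : S.length = 1 := by simpa using hT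
  rcases five a with rfl | rfl | rfl | rfl | rfl
  · exact h.nul [1, 3, 3, 2] S (by simp [hS])
  · exact p13321 h S hS
  · exact r13322 h S hS
  · exact r13323 h S hS
  · exact r13324 h S hS

private theorem z2421 {K : Type} [Field K] [CharP K 3] {E : W → K} (h : Ax E) (T : W) (hT : T.length = 2) :
    E (2 :: 4 :: 2 :: 1 :: T) = 0 := by
  obtain ⟨a, S, rfl⟩ : ∃ a S, T = a :: S := List.exists_cons_of_ne_nil (by rintro rfl; simp at hT)
  have hS : S.length = 1 := by simpa using hT
  rcases five a with rfl | rfl | rfl | rfl | rfl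
  · exact h.nul [2, 4, 2, 1] S (by simp [hS])
  · exact p24211 h S hS
  · exact z24212 h S hS
  · exact r24213 h S hS
  · exact r24214 h S hS

private theorem z2411 {K : Type} [Field K] [CharP K 3] {E : W → K} (h : Ax E) (T : W) (hT : T.length = 2) :
    E (2 :: 4 :: 1 :: 1 :: T) = 0 := by
  obtain ⟨a, S, rfl⟩ : ∃ a S, T = a :: S := List.exists_cons_of_ne_nil (by rintro rfl; simp at hT)
  have hS : S.length = 1 := by simpa using hT
  rcases five a with rfl | rfl | rfl | rfl | rfl
  · exact h.nul [2, 4, 1, 1] S (by simp [hS])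
  · exact r24111 h S hS
  · exact p24112 h S hS
  · exact r24113 h S hS
  · exact r24114 h S hS

private theorem z1321 {K : Type} [Field K] [CharP K 3] {E : W → K} (h : Ax E) (T : W) (hT : T.length = 2) :
    E (1 :: 3 :: 2 :: 1 :: T) = 0 := by
  obtain ⟨a, S, rfl⟩ : ∃ a S, T = a :: S := List.exists_cons_of_ne_nil (by rintro rfl; simp at hT)
  have hS : S.length = 1 := by simpa using hT
  rcases five a with rfl | rfl | rfl | rfl | rfl
  · exact h.nul [1, 3, 2, 1] S (by simp [hS])
  · exact z13211 h S hS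
  · exact r13212 h S hS
  · exact p13213 h S hS
  · exact r13214 h S hS

private theorem z344 {K : Type} [Field K] [CharP K 3] {E : W → K} (h : Ax E) (T : W) (hT : T.length = 3) :
    E (3 :: 4 :: 4 :: T) = 0 := by
  obtain ⟨a, S, rfl⟩ : ∃ a S, T = a :: S := List.exists_cons_of_ne_nil (by rintro rfl; simp at hT)
  have hS : S.length = 2 := by simpa using hT
  rcases five a with rfl | rfl | rfl | rfl | rfl
  · exact h.nul [3, 4, 4] S (by simp [hS])
  · exact z3441 h S hS
  · exact z3442 h S hS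
  · exact r3443 h S hS
  · exact p3444 h S hS

private theorem z342 {K : Type} [Field K] [CharP K 3] {E : W → K} (h : Ax E) (T : W) (hT : T.length = 3) :
    E (3 :: 4 :: 2 :: T) = 0 := by
  obtain ⟨a, S, rfl⟩ : ∃ a S, T = a :: S := List.exists_cons_of_ne_nil (by rintro rfl; simp at hT)
  have hS : S.length = 2 := by simpa using hT
  rcases five a with rfl | rfl | rfl | rfl | rfl
  · exact h.nul [3, 4, 2] S (by simp [hS])
  · exact p3421 h S hS
  · exact z3422 h S hS
  · exact r3423 h S hS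
  · rw [r3424 h S hS, z3442 h S hS, neg_zero]

private theorem z242 {K : Type} [Field K] [CharP K 3] {E : W → K} (h : Ax E) (T : W) (hT : T.length = 3) :
    E (2 :: 4 :: 2 :: T) = 0 := by
  obtain ⟨a, S, rfl⟩ : ∃ a S, T = a :: S := List.exists_cons_of_ne_nil (by rintro rfl; simp at hT)
  have hS : S.length = 2 := by simpa using hT
  rcases five a with rfl | rfl | rfl | rfl | rfl
  · exact h.nul [2, 4, 2] S (by simp [hS])
  · exact z2421 h S hS
  · exact p2422 h S hS
  · rw [r2423 h S hS, z3422 h S hS]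
  · exact r2424 h S hS

private theorem z341 {K : Type} [Field K] [CharP K 3] {E : W → K} (h : Ax E) (T : W) (hT : T.length = 3) :
    E (3 :: 4 :: 1 :: T) = 0 := by
  obtain ⟨a, S, rfl⟩ : ∃ a S, T = a :: S := List.exists_cons_of_ne_nil (by rintro rfl; simp at hT)
  have hS : S.length = 2 := by simpa using hT
  rcases five a with rfl | rfl | rfl | rfl | rfl
  · exact h.nul [3, 4, 1] S (by simp [hS])
  · exact r3411 h S hS
  · exact p3412 h S hS
  · exact z3413 h S hS
  · rw [r3414 h S hS, z3441 h S hS]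

private theorem z133 {K : Type} [Field K] [CharP K 3] {E : W → K} (h : Ax E) (T : W) (hT : T.length = 3) :
    E (1 :: 3 :: 3 :: T) = 0 := by
  obtain ⟨a, S, rfl⟩ : ∃ a S, T = a :: S := List.exists_cons_of_ne_nil (by rintro rfl; simp at hT)
  have hS : S.length = 2 := by simpa using hT
  rcases five a with rfl | rfl | rfl | rfl | rfl
  · exact h.nul [1, 3, 3] S (by simp [hS])
  · exact r1331 h S hS
  · exact z1332 h S hS
  · exact p1333 h S hS
  · rw [r1334 h S hS, z3413 h S hS]

private theorem z241 {K : Type} [Field K] [CharP K 3] {E : W → K} (h : Ax E) (T : W) (hT : T.length = 3) :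
    E (2 :: 4 :: 1 :: T) = 0 := by
  obtain ⟨a, S, rfl⟩ : ∃ a S, T = a :: S := List.exists_cons_of_ne_nil (by rintro rfl; simp at hT)
  have hS : S.length = 2 := by simpa using hT
  rcases five a with rfl | rfl | rfl | rfl | rfl
  · exact h.nul [2, 4, 1] S (by simp [hS])
  · exact z2411 h S hS
  · rw [r2412 h S hS, z2421 h S hS, neg_zero]
  · exact p2413 h S hS
  · exact r2414 h S hS

private theorem z132 {K : Type} [Field K] [CharP K 3] {E : W → K} (h : Ax E) (T : W) (hT : T.length = 3) :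
    E (1 :: 3 :: 2 :: T) = 0 := by
  obtain ⟨a, S, rfl⟩ : ∃ a S, T = a :: S := List.exists_cons_of_ne_nil (by rintro rfl; simp at hT)
  have hS : S.length = 2 := by simpa using hT
  rcases five a with rfl | rfl | rfl | rfl | rfl
  · exact h.nul [1, 3, 2] S (by simp [hS])
  · exact z1321 h S hS
  · exact r1322 h S hS
  · rw [r1323 h S hS, z1332 h S hS]
  · exact p1324 h S hS

private theorem z121 {K : Type} [Field K] [CharP K 3] {E : W → K} (h : Ax E) (T : W) (hT : T.length = 3) :
    E (1 :: 2 :: 1 :: T) = 0 := by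
  obtain ⟨a, S, rfl⟩ : ∃ a S, T = a :: S := List.exists_cons_of_ne_nil (by rintro rfl; simp at hT)
  have hS : S.length = 2 := by simpa using hT
  rcases five a with rfl | rfl | rfl | rfl | rfl
  · exact h.nul [1, 2, 1] S (by simp [hS])
  · exact p1211 h S hS
  · exact r1212 h S hS
  · rw [r1213 h S hS, z1321 h S hS, neg_zero]
  · rw [r1214 h S hS, z2411 h S hS, neg_zero]

private theorem z34 {K : Type} [Field K] [CharP K 3] {E : W → K} (h : Ax E) (T : W) (hT : T.length = 4) :
    E (3 :: 4 :: T) = 0 := by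
  obtain ⟨a, S, rfl⟩ : ∃ a S, T = a :: S := List.exists_cons_of_ne_nil (by rintro rfl; simp at hT)
  have hS : S.length = 3 := by simpa using hT
  rcases five a with rfl | rfl | rfl | rfl | rfl
  · exact h.nul [3, 4] S (by simp [hS])
  · exact z341 h S hS
  · exact z342 h S hS
  · exact p343 h S hS
  · exact z344 h S hS

private theorem z24 {K : Type} [Field K] [CharP K 3] {E : W → K} (h : Ax E) (T : W) (hT : T.length = 4) :
    E (2 :: 4 :: T) = 0 := by
  obtain ⟨a, S, rfl⟩ : ∃ a S, T = a :: S := List.exists_cons_of_ne_nil (by rintro rfl; simp at hT)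
  have hS : S.length = 3 := by simpa using hT
  rcases five a with rfl | rfl | rfl | rfl | rfl
  · exact h.nul [2, 4] S (by simp [hS])
  · exact z241 h S hS
  · exact z242 h S hS
  · rw [r243 h S hS, z342 h S hS]
  · exact p244 h S hS

private theorem z13 {K : Type} [Field K] [CharP K 3] {E : W → K} (h : Ax E) (T : W) (hT : T.length = 4) :
    E (1 :: 3 :: T) = 0 := by
  obtain ⟨a, S, rfl⟩ : ∃ a S, T = a :: S := List.exists_cons_of_ne_nil (by rintro rfl; simp at hT)
  have hS : S.length = 3 := by simpa using hT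
  rcases five a with rfl | rfl | rfl | rfl | rfl
  · exact h.nul [1, 3] S (by simp [hS])
  · exact p131 h S hS
  · exact z132 h S hS
  · exact z133 h S hS
  · rw [r134 h S hS, z341 h S hS, neg_zero]

private theorem z12 {K : Type} [Field K] [CharP K 3] {E : W → K} (h : Ax E) (T : W) (hT : T.length = 4) :
    E (1 :: 2 :: T) = 0 := by
  obtain ⟨a, S, rfl⟩ : ∃ a S, T = a :: S := List.exists_cons_of_ne_nil (by rintro rfl; simp at hT)
  have hS : S.length = 3 := by simpa using hT
  rcases five a with rfl | rfl | rfl | rfl | rfl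
  · exact h.nul [1, 2] S (by simp [hS])
  · exact z121 h S hS
  · exact p122 h S hS
  · rw [r123 h S hS, z132 h S hS]
  · rw [r124 h S hS, z241 h S hS, neg_zero]

private theorem z1 {K : Type} [Field K] [CharP K 3] {E : W → K} (h : Ax E) (T : W) (hT : T.length = 5) :
    E (1 :: T) = 0 := by
  obtain ⟨a, S, rfl⟩ : ∃ a S, T = a :: S := List.exists_cons_of_ne_nil (by rintro rfl; simp at hT)
  have hS : S.length = 4 := by simpa using hT
  rcases five a with rfl | rfl | rfl | rfl | rfl
  · exact h.nul [1] S (by simp [hS])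
  · exact r11 h S hS
  · exact z12 h S hS
  · exact z13 h S hS
  · exact p14 h S hS

private theorem z2 {K : Type} [Field K] [CharP K 3] {E : W → K} (h : Ax E) (T : W) (hT : T.length = 5) :
    E (2 :: T) = 0 := by
  obtain ⟨a, S, rfl⟩ : ∃ a S, T = a :: S := List.exists_cons_of_ne_nil (by rintro rfl; simp at hT)
  have hS : S.length = 4 := by simpa using hT
  rcases five a with rfl | rfl | rfl | rfl | rfl
  · exact h.nul [2] S (by simp [hS])
  · rw [r21 h S hS, z12 h S hS, neg_zero]
  · exact r22 h S hS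
  · exact p23 h S hS
  · exact z24 h S hS

private theorem z3 {K : Type} [Field K] [CharP K 3] {E : W → K} (h : Ax E) (T : W) (hT : T.length = 5) :
    E (3 :: T) = 0 := by
  obtain ⟨a, S, rfl⟩ : ∃ a S, T = a :: S := List.exists_cons_of_ne_nil (by rintro rfl; simp at hT)
  have hS : S.length = 4 := by simpa using hT
  rcases five a with rfl | rfl | rfl | rfl | rfl
  · exact h.nul [3] S (by simp [hS])
  · rw [r31 h S hS, z13 h S hS, neg_zero]
  · exact p32 h S hS
  · exact r33 h S hS
  · exact z34 h S hS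

private theorem z4 {K : Type} [Field K] [CharP K 3] {E : W → K} (h : Ax E) (T : W) (hT : T.length = 5) :
    E (4 :: T) = 0 := by
  obtain ⟨a, S, rfl⟩ : ∃ a S, T = a :: S := List.exists_cons_of_ne_nil (by rintro rfl; simp at hT)
  have hS : S.length = 4 := by simpa using hT
  rcases five a with rfl | rfl | rfl | rfl | rfl
  · exact h.nul [4] S (by simp [hS])
  · exact p41 h S hS
  · rw [r42 h S hS, z24 h S hS, neg_zero]
  · rw [r43 h S hS, z34 h S hS, neg_zero]
  · exact r44 h S hS

theorem formal {K : Type} [Field K] [CharP K 3] {E : W → K} (h : Ax E) : ∀ w : W, w.length = 6 → E w = 0 := by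
  intro w hw
  obtain ⟨a, S, rfl⟩ : ∃ a S, w = a :: S := List.exists_cons_of_ne_nil (by rintro rfl; simp at hw)
  have hS : S.length = 5 := by simpa using hw
  rcases five a with rfl | rfl | rfl | rfl | rfl
  · exact h.nul [] S (by simp [hS])
  · exact z1 h S hS
  · exact z2 h S hS
  · exact z3 h S hS
  · exact z4 h S hS

end Pool.Agent.H59.FH
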