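import Pool.Agent.H59.FH.Lcs

/-!
# [H59 FH Lam] the additive functions `h ↦ χ [h, x_j, …]`

In a group with `lcs 6 = ⊥`; `χ` is additive on `lcs 5`. Induction on `t` with `comm_mul_left` (`b = 0`): `tl x (j :: t) h = tl x t ⁅h, x j⁆`.
-/

set_option autoImplicit false

open scoped commutatorElement

namespace Pool.Agent.H59.FH

universe u

variable {H : Type u} [Group H] {K : Type} [Field K] (x : ZMod 5 → H) (χ : H → K)

private theorem comm_mem {n : ℕ} {h : H} (hh : h ∈ lcs H n) (k : H) : ⁅h, k⁆ ∈ lcs H (n + 1) :=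
  Subgroup.commutator_mem_commutator hh (Subgroup.mem_top k)

theorem tl_mem {n : ℕ} (t : W) (h : H) (hh : h ∈ lcs H n) : tl x t h ∈ lcs H (n + t.length) := by
  induction t generalizing n h with
  | nil => exact hh
  | cons j t ih =>
    have h1 : tl x (j :: t) h = tl x t ⁅h, x j⁆ := rfl
    have h2 := ih ⁅h, x j⁆ (comm_mem hh (x j))
    rw [h1, List.length_cons]
    have e : n + (t.length + 1) = n + 1 + t.length := by omega
    rw [e]
    exact h2

theorem lam_one (hc : lcs H 6 = ⊥) (hχ : ∀ g ∈ lcs H 5, ∀ h ∈ lcs H 5, χ (g * h) = χ g + χ h) {n : ℕ} (t : W)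
    (hn : n + t.length = 5) {h : H} (hh : h ∈ lcs H (n + 1)) : χ (tl x t h) = 0 := by
  have h1 := tl_mem x t h hh
  have e : n + 1 + t.length = 6 := by omega
  rw [e, hc, Subgroup.mem_bot] at h1
  rw [h1]
  have h2 := hχ 1 (Subgroup.one_mem _) 1 (Subgroup.one_mem _)
  rw [mul_one] at h2
  exact left_eq_add.1 h2

theorem lam_mul (hc : lcs H 6 = ⊥) (hχ : ∀ g ∈ lcs H 5, ∀ h ∈ lcs H 5, χ (g * h) = χ g + χ h) {n : ℕ} (t : W)
    (hn : n + t.length = 5) {g h : H} (hg : g ∈ lcs H n) (hh : h ∈ lcs H n) :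
    χ (tl x t (g * h)) = χ (tl x t g) + χ (tl x t h) := by
  induction t generalizing n g h with
  | nil =>
    have e : n = 5 := by simpa using hn
    subst e
    exact hχ g hg h hh
  | cons j t ih =>
    have hn' : n + 1 + t.length = 5 := by
      rw [List.length_cons] at hn
      omega
    obtain ⟨r, hr, he⟩ := comm_mul_left (b := 0) hg hh (k := x j) (Subgroup.mem_top (x j))
    have hg1 := comm_mem hg (x j)
    have hh1 := comm_mem hh (x j)
    have hr2 : r ∈ lcs H (n + 1 + 1) := hr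
    have hr1 : r ∈ lcs H (n + 1) :=
      (Subgroup.lowerCentralSeries_antitone (S := (⊤ : Subgroup H)) (Nat.le_succ (n + 1))) hr2
    have h1 : ∀ z : H, tl x (j :: t) z = tl x t ⁅z, x j⁆ := fun _ => rfl
    rw [h1, h1, h1, he, ih hn' (Subgroup.mul_mem _ hg1 hh1) hr1, ih hn' hg1 hh1,
      lam_one x χ hc hχ t hn' hr2, add_zero]

theorem lam_inv (hc : lcs H 6 = ⊥) (hχ : ∀ g ∈ lcs H 5, ∀ h ∈ lcs H 5, χ (g * h) = χ g + χ h) {n : ℕ} (t : W)
    (hn : n + t.length = 5) {g : H} (hg : g ∈ lcs H n) : χ (tl x t g⁻¹) = - χ (tl x t g) := by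
  have h1 := lam_mul x χ hc hχ t hn hg (Subgroup.inv_mem _ hg)
  rw [mul_inv_cancel, lam_one x χ hc hχ t hn (Subgroup.one_mem _)] at h1
  rw [eq_neg_iff_add_eq_zero, add_comm]
  exact h1.symm

end Pool.Agent.H59.FH
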