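import Pool.Agent.H59.FH.Def

/-!
# [H59 FH Lcs] commutators modulo the lower central series

`lcs n = (⊤ : Subgroup H).lowerCentralSeries n` (`lcs 0 = ⊤`, `lcs (n+1) = ⁅lcs n, ⊤⁆`, antitone, normal).
`lcs_comm`: induction on `b`, three subgroups (`Subgroup.commutator_commutator_eq_bot_of_rotate` in the quotient, or
`Subgroup.commutator_commutator_le`-type lemma; compare `lcs_one_two` in Pool/Agent/H83/BF/ClassFive.lean).
`jacobi`: Hall-Witt modulo `lcs (a + b + 3)` (in the quotient by this normal subgroup all commutators of total weight `≥ a + b + 4` vanish, so the three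
elements are central). `comm_mul_left`, `comm_mul_right`: `[g h, k] = [g, [h, k]] [h, k] [g, k]` and so on.
-/

set_option autoImplicit false

open scoped commutatorElement

namespace Pool.Agent.H59.FH

universe u

variable {H : Type u} [Group H]

/-- the lower central series, `lcs 0 = ⊤` -/
def lcs (H : Type u) [Group H] (n : ℕ) : Subgroup H := (⊤ : Subgroup H).lowerCentralSeries n

private theorem map_lcs {N : Subgroup H} [N.Normal] (n : ℕ) :
    (lcs H n).map (QuotientGroup.mk' N) = lcs (H ⧸ N) n := by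
  unfold lcs
  rw [Subgroup.map_lowerCentralSeries, Subgroup.map_top_of_surjective _ (QuotientGroup.mk'_surjective N)]

instance (n : ℕ) : (lcs H n).Normal := by
  unfold lcs
  infer_instance

theorem lcs_comm (a b : ℕ) : ⁅lcs H a, lcs H b⁆ ≤ lcs H (a + b + 1) := by
  induction b generalizing a with
  | zero => exact le_rfl
  | succ b ih =>
    have h0 : lcs (H ⧸ lcs H (a + b + 2)) (a + b + 2) = ⊥ := by
      rw [← map_lcs]
      exact QuotientGroup.map_mk'_self _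
    have hle : ∀ i, ⁅lcs (H ⧸ lcs H (a + b + 2)) i, lcs (H ⧸ lcs H (a + b + 2)) b⁆ ≤
        lcs (H ⧸ lcs H (a + b + 2)) (i + b + 1) := by
      intro i
      rw [← map_lcs, ← map_lcs, ← map_lcs, ← Subgroup.map_commutator]
      exact Subgroup.map_mono (ih i)
    have h5 : ⁅lcs (H ⧸ lcs H (a + b + 2)) a, lcs (H ⧸ lcs H (a + b + 2)) (b + 1)⁆ = ⊥ := by
      rw [Subgroup.commutator_comm]
      have e : lcs (H ⧸ lcs H (a + b + 2)) (b + 1) = ⁅lcs (H ⧸ lcs H (a + b + 2)) b, ⊤⁆ := rfl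
      rw [e]
      apply Subgroup.commutator_commutator_eq_bot_of_rotate
      · rw [Subgroup.commutator_comm ⊤, eq_bot_iff, ← h0]
        have h1 := hle (a + 1)
        have e2 : a + 1 + b + 1 = a + b + 2 := by ring
        rw [e2] at h1
        exact h1
      · rw [eq_bot_iff, ← h0]
        exact Subgroup.commutator_mono (hle a) le_rfl
    rw [← map_lcs, ← map_lcs, ← Subgroup.map_commutator, Subgroup.map_eq_bot_iff, QuotientGroup.ker_mk'] at h5
    exact h5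

private theorem lcs_anti {i j : ℕ} (h : i ≤ j) : lcs H j ≤ lcs H i :=
  Subgroup.lowerCentralSeries_antitone (⊤ : Subgroup H) h

private theorem cmem {i j n : ℕ} {x y : H} (hx : x ∈ lcs H i) (hy : y ∈ lcs H j) (h : n ≤ i + j + 1) :
    ⁅x, y⁆ ∈ lcs H n :=
  lcs_anti h (lcs_comm i j (Subgroup.commutator_mem_commutator hx hy))

private theorem mem0 (x : H) : x ∈ lcs H 0 := Subgroup.mem_top x

private theorem cm {i j n : ℕ} {x y : H} (hx : x ∈ lcs H i) (hy : y ∈ lcs H j) (h : n ≤ i + j + 1) :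
    Commute (QuotientGroup.mk' (lcs H n) x) (QuotientGroup.mk' (lcs H n) y) := by
  rw [← commutatorElement_eq_one_iff_commute, ← map_commutatorElement, QuotientGroup.mk'_apply,
    QuotientGroup.eq_one_iff]
  exact cmem hx hy h

private theorem of_quot {n : ℕ} {X Y : H} (h : QuotientGroup.mk' (lcs H n) X = QuotientGroup.mk' (lcs H n) Y) :
    ∃ r ∈ lcs H n, X = Y * r :=
  ⟨Y⁻¹ * X, QuotientGroup.eq.1 h.symm, by group⟩

theorem comm_mul_left {a b : ℕ} {g h k : H} (hg : g ∈ lcs H a) (hh : h ∈ lcs H a) (hk : k ∈ lcs H b) :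
    ∃ r ∈ lcs H (a + b + 2), ⁅g * h, k⁆ = ⁅g, k⁆ * ⁅h, k⁆ * r := by
  apply of_quot
  have h1 : ⁅g * h, k⁆ = g * ⁅h, k⁆ * g⁻¹ * ⁅g, k⁆ := by
    simp only [commutatorElement_def]
    group
  have h2 := cm (n := a + b + 2) (cmem hh hk le_rfl) (mem0 g) (by omega)
  have h3 := cm (n := a + b + 2) (cmem hh hk le_rfl) (mem0 ⁅g, k⁆) (by omega)
  rw [h1, map_mul, map_mul, map_mul, map_inv, ← h2.eq, mul_inv_cancel_right, h3.eq, map_mul]

theorem comm_mul_right {a b : ℕ} {g h k : H} (hg : g ∈ lcs H a) (hh : h ∈ lcs H b) (hk : k ∈ lcs H b) :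
    ∃ r ∈ lcs H (a + b + 2), ⁅g, h * k⁆ = ⁅g, h⁆ * ⁅g, k⁆ * r := by
  apply of_quot
  have h1 : ⁅g, h * k⁆ = ⁅g, h⁆ * (h * ⁅g, k⁆ * h⁻¹) := by
    simp only [commutatorElement_def]
    group
  have h2 := cm (n := a + b + 2) (cmem hg hk le_rfl) (mem0 h) (by omega)
  rw [h1, map_mul, map_mul, map_mul, map_inv, ← h2.eq, mul_inv_cancel_right, map_mul]

private theorem jac_core {Q : Type u} [Group Q] {U V C p q d x2 x3 : Q} (hp : p = ⁅U, V⁆) (hq : q = ⁅U, C⁆)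
    (hd : d = ⁅V, C⁆) (h2 : x2 = ⁅p, C⁆) (h3 : x3 = ⁅q, V⁆) (c2 : ∀ y, Commute x2 y) (c3 : ∀ y, Commute x3 y)
    (hpq : Commute p q) (hqd : Commute q d) (hpd : Commute p d) : ⁅U, d⁆ = x2 * x3⁻¹ := by
  have e1 : U * d * U⁻¹ = (p * V) * (q * C) * (p * V)⁻¹ * (q * C)⁻¹ := by
    rw [hp, hq, hd]
    simp only [commutatorElement_def]
    group
  have e2 : V * q = x3⁻¹ * q * V := by
    rw [h3]
    simp only [commutatorElement_def]
    group
  have e3 : V * C * V⁻¹ = d * C := by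
    rw [hd]
    simp only [commutatorElement_def]
    group
  have e4 : C * p⁻¹ * C⁻¹ = p⁻¹ * x2 := by
    rw [h2]
    simp only [commutatorElement_def]
    group
  have e6 : p * q * d = d * (p * q) := by
    rw [mul_assoc, hqd.eq, ← mul_assoc, hpd.eq, mul_assoc]
  have e5 : U * d * U⁻¹ = x2 * x3⁻¹ * d := by
    calc U * d * U⁻¹ = p * (V * q) * C * V⁻¹ * p⁻¹ * C⁻¹ * q⁻¹ := by rw [e1]; group
      _ = p * (x3⁻¹ * q * V) * C * V⁻¹ * p⁻¹ * C⁻¹ * q⁻¹ := by rw [e2]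
      _ = (p * x3⁻¹) * q * (V * C * V⁻¹) * p⁻¹ * C⁻¹ * q⁻¹ := by group
      _ = (x3⁻¹ * p) * q * (d * C) * p⁻¹ * C⁻¹ * q⁻¹ := by rw [e3, (c3 p).inv_left.eq]
      _ = x3⁻¹ * (p * q * d) * (C * p⁻¹ * C⁻¹) * q⁻¹ := by group
      _ = x3⁻¹ * (d * (p * q)) * (p⁻¹ * x2) * q⁻¹ := by rw [e4, e6]
      _ = x3⁻¹ * (d * (p * q)) * p⁻¹ * (x2 * q⁻¹) := by group
      _ = x3⁻¹ * (d * (q * p)) * p⁻¹ * (q⁻¹ * x2) := by rw [(c2 q⁻¹).eq, hpq.eq]
      _ = x3⁻¹ * (d * x2) := by group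
      _ = x3⁻¹ * (x2 * d) := by rw [(c2 d).eq]
      _ = (x3⁻¹ * x2) * d := by group
      _ = x2 * x3⁻¹ * d := by rw [(c3 x2).inv_left.eq]
  rw [commutatorElement_def, e5, mul_inv_cancel_right]

theorem jacobi {a b : ℕ} {u v c : H} (hu : u ∈ lcs H a) (hv : v ∈ lcs H b) :
    ∃ r ∈ lcs H (a + b + 3), ⁅u, ⁅v, c⁆⁆ = ⁅⁅u, v⁆, c⁆ * ⁅⁅u, c⁆, v⁆⁻¹ * r := by
  apply of_quot
  have hp : ⁅u, v⁆ ∈ lcs H (a + b + 1) := cmem hu hv le_rfl
  have hq : ⁅u, c⁆ ∈ lcs H (a + 1) := cmem hu (mem0 c) le_rfl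
  have hd : ⁅v, c⁆ ∈ lcs H (b + 1) := cmem hv (mem0 c) le_rfl
  have h2 : ⁅⁅u, v⁆, c⁆ ∈ lcs H (a + b + 2) := cmem hp (mem0 c) le_rfl
  have h3 : ⁅⁅u, c⁆, v⁆ ∈ lcs H (a + b + 2) := cmem hq hv (by omega)
  have key := jac_core (U := QuotientGroup.mk' (lcs H (a + b + 3)) u) (V := QuotientGroup.mk' (lcs H (a + b + 3)) v)
    (C := QuotientGroup.mk' (lcs H (a + b + 3)) c) (p := QuotientGroup.mk' (lcs H (a + b + 3)) ⁅u, v⁆)
    (q := QuotientGroup.mk' (lcs H (a + b + 3)) ⁅u, c⁆) (d := QuotientGroup.mk' (lcs H (a + b + 3)) ⁅v, c⁆)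
    (x2 := QuotientGroup.mk' (lcs H (a + b + 3)) ⁅⁅u, v⁆, c⁆)
    (x3 := QuotientGroup.mk' (lcs H (a + b + 3)) ⁅⁅u, c⁆, v⁆)
    (map_commutatorElement _ _ _) (map_commutatorElement _ _ _) (map_commutatorElement _ _ _)
    (map_commutatorElement _ _ _) (map_commutatorElement _ _ _)
    (fun y => by
      obtain ⟨y, rfl⟩ := QuotientGroup.mk'_surjective _ y
      exact cm h2 (mem0 y) (by omega))
    (fun y => by
      obtain ⟨y, rfl⟩ := QuotientGroup.mk'_surjective _ y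
      exact cm h3 (mem0 y) (by omega))
    (cm hp hq (by omega)) (cm hq hd (by omega)) (cm hp hd (by omega))
  rw [map_commutatorElement, key, map_mul, map_inv]

end Pool.Agent.H59.FH
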